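import Pool.Agent.N941.SP.Wd

/-!
Diamond words: self-avoiding words which go up by `Y` levels and stay in the open diamond with
diagonal the segment from the start to the end.
-/

set_option autoImplicit false

namespace Pool.Agent.N941.SP

open Finset Real
open Pool.Agent.H122R3.SX

/-- diamond words -/
structure Dm (Y : ℤ) (w : W) : Prop where
  saw : Saw w
  top : pos w 0 = Y
  hor : X w = 0
  mid : ∀ v, v <+: w → v ≠ [] → v ≠ w → 2 * |X v| + |2 * pos v 0 - Y| < Y

/-- number of diamond words -/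
noncomputable def dm (Y : ℤ) (n : ℕ) : ℕ := (fs (Dm Y) n).card

theorem pos_reverse (w : W) (i : Fin 2) : pos w.reverse i = pos w i := by
  induction w with
  | nil => rfl
  | cons l w ih => rw [List.reverse_cons, pos_append, ih, pos_cons, pos_cons, pos_nil]; ring

theorem Saw.reverse {w : W} (h : Saw w) : Saw w.reverse := by
  intro v hv h0
  have h1 : v.reverse <:+: w := by
    rw [← List.reverse_infix, List.reverse_reverse]
    exact hv
  obtain ⟨i, hi⟩ := h v.reverse h1 (by simpa using h0)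
  rw [pos_reverse] at hi
  exact ⟨i, hi⟩

theorem saw_ne {w v : W} (h : Saw w) (hv : v <+: w) (h0 : v ≠ []) (hp : pos v 0 = 0) : X v ≠ 0 := by
  obtain ⟨i, hi⟩ := h v hv.isInfix h0
  fin_cases i
  · exact absurd hp hi
  · exact hi

theorem GW.pos_ge {η : ℝ} {H : ℤ} {w v : W} (h : GW η H w) (hη : η ≤ 1 / 2) (hv : v <+: w)
    (h0 : v ≠ []) : 1 ≤ pos v 0 ∧ 2 * |X v| ≤ pos v 0 := by
  obtain ⟨h1, h2, h3⟩ := h.high v hv
  have h4 : (0 : ℝ) ≤ pos v 0 := by exact_mod_cast h1
  have h5 : 2 * |(X v : ℝ)| ≤ pos v 0 := by nlinarith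
  have h6 : 2 * |X v| ≤ pos v 0 := by exact_mod_cast h5
  refine ⟨?_, h6⟩
  by_contra hc
  have h7 : pos v 0 = 0 := by omega
  apply saw_ne h.saw hv h0 h7
  have := abs_nonneg (X v)
  exact abs_eq_zero.1 (by omega)

theorem Dm.glue {η : ℝ} (hη0 : 0 < η) (hη : η ≤ 1 / 2) {H H' T : ℤ} (hH : 1 ≤ H)
    (hT : (T : ℝ) ≤ η * H) {a b c : W} (ha : GW η H a) (hb : G H' 0 T b) (hc : GW η H c) :
    Dm (2 * H + H' + 1) ((a ++ b) ++ (c ++ [0]).reverse) := by
  have hH' := hb.nonneg
  have hT2 : 2 * T ≤ H := by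
    have h1 : (0 : ℝ) ≤ H := by exact_mod_cast (by omega : 0 ≤ H)
    have : 2 * (T : ℝ) ≤ H := by nlinarith
    exact_mod_cast this
  have hab := ha.append hη0 hb hT
  have hb0 : ∀ p, p <+: b → 0 ≤ pos p 0 := by
    intro p hp
    by_cases h : p = []
    · rw [h]; simp
    · have := hb.low p hp h; omega
  -- the last part
  have hcs : Saw (c ++ [0]) := saw_append hc.saw G_elem.saw hc.top
    (fun v hv => (hc.high v hv).2.1) G_elem.low
  have hcp : pos (c ++ [0]) 0 = H + 1 := by rw [pos_append, hc.top, G_elem.top]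
  have hcX : X (c ++ [0]) = 0 := by rw [X_append, hc.hor, G_elem.hor]; rfl
  have key : ∀ p, p <+: (c ++ [0]).reverse → p ≠ [] →
      ∃ q, q <+: c ∧ pos p 0 = H + 1 - pos q 0 ∧ X p = - X q ∧ (p ≠ (c ++ [0]).reverse → q ≠ []) := by
    intro p hp hp0
    obtain ⟨t, ht⟩ := hp
    have e1 : c ++ [0] = t.reverse ++ p.reverse := by
      rw [← List.reverse_append, ht, List.reverse_reverse]
    have e2 : t.reverse <+: c ++ [0] := ⟨p.reverse, e1.symm⟩
    refine ⟨t.reverse, ?_, ?_, ?_, ?_⟩
    · rcases List.prefix_concat_iff.1 e2 with h | h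
      · exfalso
        rw [h] at e1
        have := congrArg List.length e1
        rw [List.length_append (as := c ++ [0])] at this
        simp only [List.length_reverse] at this
        exact hp0 (List.length_eq_zero_iff.1 (by omega))
      · exact h
    · have : pos (c ++ [0]) 0 = pos (t.reverse ++ p.reverse) 0 := by rw [e1]
      rw [hcp, pos_append, pos_reverse, pos_reverse] at this
      rw [pos_reverse]
      omega
    · have := congrArg X e1
      rw [hcX, X_append] at this
      unfold X at *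
      rw [pos_reverse, pos_reverse] at this
      rw [pos_reverse]
      omega
    · intro h1 h2
      apply h1
      rw [← ht, List.reverse_eq_nil_iff.1 h2, List.append_nil]
  have hlow : ∀ p, p <+: (c ++ [0]).reverse → p ≠ [] → 1 ≤ pos p 0 := by
    intro p hp hp0
    obtain ⟨q, hq, h1, h2, h3⟩ := key p hp hp0
    have := (hc.high q hq).2.1
    omega
  refine ⟨saw_append hab.saw (Saw.reverse hcs) hab.top (fun v hv => (hab.high v hv).2.1) hlow,
    ?_, ?_, ?_⟩
  · rw [pos_append, hab.top, pos_reverse, hcp]; ring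
  · rw [X_append, hab.hor]
    unfold X at *
    rw [pos_reverse, hcX]; rfl
  · intro v hv hv0 hvw
    rcases prefix_append_cases hv with hv | ⟨p, rfl, hp⟩
    · rcases prefix_append_cases hv with hv | ⟨p, rfl, hp⟩
      · obtain ⟨h1, h2⟩ := GW.pos_ge ha hη hv hv0
        have h3 := (ha.high v hv).2.1
        rw [abs_of_nonpos (by omega : 2 * pos v 0 - (2 * H + H' + 1) ≤ 0)]
        omega
      · have h1 := hb0 p hp
        have h2 := hb.high p hp
        rw [pos_append, X_append, ha.top, ha.hor, zero_add]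
        have h3 : |2 * (H + pos p 0) - (2 * H + H' + 1)| ≤ H' + 1 := by
          rw [abs_le]; constructor <;> omega
        omega
    · by_cases hp0 : p = []
      · subst hp0
        rw [List.append_nil, hab.top, hab.hor, abs_zero]
        have : |2 * (H + H') - (2 * H + H' + 1)| ≤ H' + 1 := by
          rw [abs_le]; constructor <;> omega
        omega
      · obtain ⟨q, hq, h1, h2, h3⟩ := key p hp hp0
        have hq0 : q ≠ [] := h3 (by
          rintro rfl
          exact hvw rfl)
        obtain ⟨h4, h5⟩ := GW.pos_ge hc hη hq hq0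
        have h6 := (hc.high q hq).2.1
        rw [pos_append, X_append, hab.top, hab.hor, h1, h2, zero_add, abs_neg]
        rw [abs_of_nonneg (by omega : 0 ≤ 2 * (H + H' + (H + 1 - pos q 0)) - (2 * H + H' + 1))]
        omega

theorem dm_ge {η : ℝ} (hη0 : 0 < η) (hη : η ≤ 1 / 2) {H H' T : ℤ} (hH : 1 ≤ H)
    (hT : (T : ℝ) ≤ η * H) (N M N' : ℕ) :
    gw η H N * g H' 0 T M * gw η H N' ≤ dm (2 * H + H' + 1) (N + M + 1 + N') := by
  classical
  unfold g gw dm
  rw [← card_product, ← card_product]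
  apply card_le_card_of_injOn (fun p => (p.1.1 ++ p.1.2) ++ (p.2 ++ [0]).reverse)
  · rintro ⟨⟨a, b⟩, c⟩ hp
    rw [coe_product, Set.mem_prod, coe_product, Set.mem_prod, mem_coe, mem_coe, mem_coe, mem_fs,
      mem_fs, mem_fs] at hp
    rw [mem_coe, mem_fs]
    refine ⟨Dm.glue hη0 hη hH hT hp.1.1.1 hp.1.2.1 hp.2.1, ?_⟩
    simp only [List.length_append, List.length_reverse, hp.1.1.2, hp.1.2.2, hp.2.2,
      List.length_singleton]
    omega
  · rintro ⟨⟨a, b⟩, c⟩ hp ⟨⟨a', b'⟩, c'⟩ hp' h
    rw [coe_product, Set.mem_prod, coe_product, Set.mem_prod, mem_coe, mem_coe, mem_coe, mem_fs,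
      mem_fs, mem_fs] at hp hp'
    simp only at h hp hp'
    obtain ⟨h1, h2⟩ := List.append_inj h (by
      rw [List.length_append, List.length_append, hp.1.1.2, hp.1.2.2, hp'.1.1.2, hp'.1.2.2])
    obtain ⟨h3, h4⟩ := List.append_inj h1 (by rw [hp.1.1.2, hp'.1.1.2])
    have h5 := List.reverse_injective h2
    have h6 := List.append_cancel_right h5
    rw [h3, h4, h6]

end Pool.Agent.N941.SP
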