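import Pool.Agent.N941.SP.Apx
import Pool.Agent.N941.SP.Arm

/-!
The number of self-avoiding walks which follow a given simple curve.
-/

set_option autoImplicit false

namespace Pool.Agent.N941.SP

open Finset Real
open Pool.Agent.H122R3.SX (Adj V W X pos Saw c walks fs mem_fs exists_big fw fw_inj ncard_walks
  walks_finite pos_append pos_nil)
open Pool.Agent.TH303.SX2 (Bd)

theorem Dm.pre {Y : ℤ} {w : W} (hY : 1 ≤ Y) (h : Dm Y w) {u : W} (hu : u <+: w) :
    0 ≤ pos u 0 ∧ pos u 0 ≤ Y ∧ 2 * |X u| ≤ Y := by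
  by_cases h1 : u = []
  · rw [h1]
    simp only [pos_nil, Pool.Agent.H122R3.SX.X_nil, abs_zero, mul_zero]
    omega
  · by_cases h2 : u = w
    · rw [h2, h.top, h.hor, abs_zero]
      omega
    · have h3 := h.mid u hu h1 h2
      have h4 := abs_nonneg (X u)
      rcases abs_cases (2 * pos u 0 - Y) with h5 | h5 <;> omega

theorem Dm.len {Y : ℤ} {w : W} (hY : 1 ≤ Y) (h : Dm Y w) : w.length < 8 * (Y.toNat + 1) ^ 2 := by
  by_contra hc
  obtain ⟨v, i, ⟨s, t, hst⟩, hv⟩ := exists_big (S := Y.toNat + 1) (by omega) h.saw (not_lt.1 hc)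
  have h1 := h.pre hY (u := s) ⟨v ++ t, by rw [← List.append_assoc]; exact hst⟩
  have h2 := h.pre hY (u := s ++ v) ⟨t, hst⟩
  rw [pos_append, Pool.Agent.H122R3.SX.X_append] at h2
  have e : ((Y.toNat + 1 : ℕ) : ℤ) = Y + 1 := by push_cast; omega
  rw [e] at hv
  fin_cases i
  · change Y + 1 ≤ |pos v 0| at hv
    rcases abs_cases (pos v 0) with h5 | h5 <;> omega
  · change Y + 1 ≤ |X v| at hv
    rcases abs_cases (X v) with h5 | h5 <;> rcases abs_cases (X s) with h6 | h6 <;>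
      rcases abs_cases (X s + X v) with h7 | h7 <;> omega

/-- the blocks -/
def blk (L : ℕ) (w : ℕ → W) (i s : ℕ) : ℤ × ℤ := if i < L then V ((w i).take s) else (0, (s : ℤ))

/-- the times -/
theorem mul_mono {m : ℕ} (hm : 1 ≤ m) : StrictMono (fun i => m * i) := by
  intro i j hij
  exact Nat.mul_lt_mul_of_pos_left hij (by omega)

section
variable {Y : ℤ} {L m r : ℕ} {P : ℕ → ℤ × ℤ} (hY : 1 ≤ Y) (hL : 1 ≤ L) (hm : 1 ≤ m) (hrm : r < m)
  (hrY : (r : ℤ) < Y) (hadj : ∀ i < L, Adj (P i) (P (i + 1)))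
  (hinj : ∀ i ≤ L, ∀ j ≤ L, P i = P j → i = j)

include hY hL hm hrm hrY hadj hinj

theorem blk_facts {w : ℕ → W} (hw : ∀ i < L, Dm Y (w i) ∧ (w i).length = m) :
    (∀ i < L, Fl Y (m * (i + 1) - m * i) (blk L w i)) ∧ Blk Y r (blk L w L) ∧
      m * L + r < m * (L + 1) := by
  refine ⟨?_, ?_, ?_⟩
  · intro i hi
    have e : m * (i + 1) - m * i = m := by rw [mul_add, mul_one]; omega
    rw [e]
    have h1 := (hw i hi).1.fl hY
    rw [(hw i hi).2] at h1
    have e2 : blk L w i = fun s => V ((w i).take s) := by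
      funext s
      unfold blk
      rw [if_pos hi]
    rw [e2]
    exact h1
  · have e2 : blk L w L = fun s : ℕ => ((0 : ℤ), (s : ℤ)) := by
      funext s
      unfold blk
      rw [if_neg (by omega)]
    rw [e2]
    exact straight_blk hrY
  · rw [mul_add, mul_one]; omega

/-- the walk of a family of words -/
def wk (Y : ℤ) (L m n : ℕ) (P : ℕ → ℤ × ℤ) (w : ℕ → W) : Fin (n + 1) → ℤ × ℤ :=
  fun k => subst Y (ext L P) (fun i => m * i) (blk L w) k

theorem wk_mem (hP0 : P 0 = 0) {w : ℕ → W} (hw : ∀ i < L, Dm Y (w i) ∧ (w i).length = m) :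
    wk Y L m (m * L + r) P w ∈ walks (m * L + r) := by
  obtain ⟨hf, hr, hrL⟩ := blk_facts hY hL hm hrm hrY hadj hinj hw
  have hlp := ext_lp hL hadj hinj
  have hτ := mul_mono hm
  refine ⟨?_, ?_, ?_⟩
  · unfold wk
    have h1 := subst_tau (Y := Y) (p := ext L P) (τ := fun i => m * i) (d := blk L w) hτ
      (Nat.mul_zero m) (i := 0) (hf 0 (by omega)).blk.zero
    simp only [Nat.mul_zero] at h1
    simp only [Fin.val_zero]
    rw [h1, ext_of_le (Nat.zero_le _), hP0]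
    simp [sc]
  · intro k k' h
    exact Fin.ext (subst_inj hY hlp hτ (Nat.mul_zero m) hf hr hrL (by omega) (by omega) h)
  · intro k
    exact subst_adj hlp hτ (Nat.mul_zero m) hf hr hrL (by simpa using k.2)

theorem wk_inj {w w' : ℕ → W} (hw : ∀ i < L, Dm Y (w i) ∧ (w i).length = m)
    (hw' : ∀ i < L, Dm Y (w' i) ∧ (w' i).length = m)
    (h : wk Y L m (m * L + r) P w = wk Y L m (m * L + r) P w') : ∀ i < L, w i = w' i := by
  intro i hi
  have hlp := ext_lp hL hadj hinj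
  have hτ := mul_mono hm
  apply fw_inj (hw i hi).2 (hw' i hi).2
  funext s
  unfold fw
  have hs := s.2
  rcases Nat.lt_or_ge (s : ℕ) m with h1 | h1
  · have hk : m * i + s < m * L + r + 1 := by
      have : m * (i + 1) ≤ m * L := Nat.mul_le_mul_left _ (by omega)
      rw [mul_add, mul_one] at this
      omega
    have h2 := congrFun h ⟨m * i + s, hk⟩
    unfold wk at h2
    have hidx : idx (fun i => m * i) (m * i + s) = i :=
      idx_eq hτ (Nat.mul_zero m) (by show m * i ≤ m * i + s; omega)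
        (by show m * i + s < m * (i + 1); rw [mul_add, mul_one]; omega)
    unfold subst at h2
    simp only [hidx] at h2
    have h3 := rot_inj (hlp.un i (by omega)) (add_left_cancel h2)
    rw [Nat.add_sub_cancel_left] at h3
    unfold blk at h3
    rw [if_pos hi, if_pos hi] at h3
    exact h3
  · have e : (s : ℕ) = m := by omega
    rw [e, List.take_of_length_le (hw i hi).2.le, List.take_of_length_le (hw' i hi).2.le]
    unfold V
    rw [(hw i hi).1.top, (hw i hi).1.hor, (hw' i hi).1.top, (hw' i hi).1.hor]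

theorem wk_close {γ : C(unitInterval, ℂ)} {R εa ε1 δ1 : ℝ} (hR : 0 < R) (hεa : 0 < εa)
    (hR1 : 1 / εa ≤ R) (hLa : 1 / εa ≤ L) (hεδ : 2 * εa ≤ δ1) (hLm : L ≤ m)
    (huc : ∀ s t : unitInterval, |(s : ℝ) - t| ≤ δ1 → ‖γ s - γ t‖ ≤ ε1)
    (hP : ∀ k ≤ L, ‖pt (P k) - R * cv γ ((k : ℝ) / L)‖ ≤ εa * R)
    {w : ℕ → W} (hw : ∀ i < L, Dm Y (w i) ∧ (w i).length = m) (k : Fin (m * L + r + 1)) :
    ‖pt (wk Y L m (m * L + r) P w k) - ((Y * R : ℝ) : ℂ) * cv γ ((k : ℝ) / (m * L + r : ℕ))‖ ≤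
      (2 * εa + ε1) * (Y * R) := by
  obtain ⟨hf, hr, hrL⟩ := blk_facts hY hL hm hrm hrY hadj hinj hw
  have hlp := ext_lp hL hadj hinj
  have hτ := mul_mono hm
  have hτ0 : (fun i => m * i) 0 = 0 := Nat.mul_zero m
  have hk : (k : ℕ) ≤ m * L + r := by have := k.2; omega
  have h1 := subst_close (by omega : 0 ≤ Y) hlp hτ hτ0 hf hr hrL hk
  obtain ⟨h2, h3⟩ := idx_spec hτ hτ0 (k : ℕ)
  obtain ⟨i, hi⟩ : ∃ i, i = idx (fun i => m * i) (k : ℕ) := ⟨_, rfl⟩
  have hiL : i ≤ L := by rw [hi]; exact idx_le hτ hτ0 (by omega)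
  simp only [← hi] at h1 h2 h3
  rw [ext_of_le hiL] at h1
  have hYr : (1 : ℝ) ≤ (Y : ℝ) := by exact_mod_cast hY
  have hLr : (0 : ℝ) < L := by exact_mod_cast hL
  have hmr : (0 : ℝ) < m := by exact_mod_cast hm
  have hn0 : (0 : ℝ) < ((m * L + r : ℕ) : ℝ) := by
    exact_mod_cast Nat.lt_of_lt_of_le (Nat.mul_pos hm hL) (Nat.le_add_right _ _)
  have hL2 : 1 / (L : ℝ) ≤ εa := by
    rw [div_le_iff₀ hLr]
    rw [div_le_iff₀ hεa] at hLa
    linarith
  have htime : |(i : ℝ) / L - (k : ℝ) / (m * L + r : ℕ)| ≤ δ1 := by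
    have b1 : ((k : ℕ) : ℝ) / (m * L + r : ℕ) ≤ (i : ℝ) / L + 1 / L := by
      rw [← add_div, div_le_div_iff₀ hn0 hLr]
      have c1 : (k : ℝ) ≤ m * (i + 1) := by
        have : (k : ℕ) ≤ m * (i + 1) := h3.le
        exact_mod_cast this
      have c2 : (m : ℝ) * L ≤ (m * L + r : ℕ) := by
        push_cast
        have : (0 : ℝ) ≤ r := Nat.cast_nonneg r
        linarith
      have c3 : (0 : ℝ) ≤ (i : ℝ) + 1 := by positivity
      calc (k : ℝ) * L ≤ m * (i + 1) * L := by gcongr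
        _ = (i + 1) * (m * L) := by ring
        _ ≤ _ := by gcongr
    have b2 : (i : ℝ) / L - 1 / L ≤ ((k : ℕ) : ℝ) / (m * L + r : ℕ) := by
      rw [← sub_div, div_le_div_iff₀ hLr hn0]
      have c1 : (m : ℝ) * i ≤ k := by exact_mod_cast h2
      have c2 : (i : ℝ) ≤ L := by exact_mod_cast hiL
      have c3 : (r : ℝ) ≤ m := by exact_mod_cast hrm.le
      have c4 : (0 : ℝ) ≤ r := Nat.cast_nonneg r
      have c5 : (L : ℝ) ≤ m := by exact_mod_cast hLm
      have c6 : (0 : ℝ) ≤ i := Nat.cast_nonneg i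
      push_cast
      have c7 : (i : ℝ) * r ≤ L * m := by gcongr
      nlinarith
    rw [abs_le]
    constructor <;> linarith
  have h4 := cv_close huc htime
  have h5 := hP i hiL
  have e : pt (wk Y L m (m * L + r) P w k) - ((Y * R : ℝ) : ℂ) * cv γ ((k : ℝ) / (m * L + r : ℕ)) =
      (pt (wk Y L m (m * L + r) P w k) - (Y : ℂ) * pt (P i)) +
      (Y : ℂ) * (pt (P i) - R * cv γ ((i : ℝ) / L)) +
      ((Y * R : ℝ) : ℂ) * (cv γ ((i : ℝ) / L) - cv γ ((k : ℝ) / (m * L + r : ℕ))) := by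
    push_cast
    ring
  rw [e]
  refine norm_add₃_le.trans ?_
  rw [norm_mul, norm_mul, Complex.norm_real, Complex.norm_intCast, Real.norm_eq_abs,
    abs_of_nonneg (by positivity : 0 ≤ (Y : ℝ) * R), abs_of_nonneg (by linarith : (0 : ℝ) ≤ Y)]
  have h6 : (Y : ℝ) * ‖pt (P i) - R * cv γ ((i : ℝ) / L)‖ ≤ Y * (εa * R) := by gcongr
  have h7 : (Y : ℝ) * R * ‖cv γ ((i : ℝ) / L) - cv γ ((k : ℝ) / (m * L + r : ℕ))‖ ≤ Y * R * ε1 := by
    gcongr
  have h8 : (Y : ℝ) ≤ εa * (Y * R) := by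
    rw [div_le_iff₀ hεa] at hR1
    nlinarith
  have h9 : ‖pt (wk Y L m (m * L + r) P w k) - (Y : ℂ) * pt (P i)‖ ≤ Y := h1
  nlinarith

theorem dm_pow_le (hP0 : P 0 = 0) (Q : (Fin (m * L + r + 1) → ℤ × ℤ) → Prop)
    (hQ : ∀ w : ℕ → W, (∀ i < L, Dm Y (w i) ∧ (w i).length = m) → Q (wk Y L m (m * L + r) P w)) :
    dm Y m ^ L ≤ {ω | ω ∈ walks (m * L + r) ∧ Q ω}.ncard := by
  classical
  have h1 : dm Y m ^ L = (Fintype.piFinset fun _ : Fin L => fs (Dm Y) m).card := by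
    rw [Fintype.card_piFinset, prod_const, card_univ, Fintype.card_fin]
    rfl
  obtain ⟨F, hF⟩ : ∃ F : (Fin L → W) → ℕ → W, F = fun v i => if h : i < L then v ⟨i, h⟩ else [] :=
    ⟨_, rfl⟩
  have hFi : ∀ v (i : Fin L), F v i = v i := by
    intro v i
    rw [hF]
    simp
  have hFw : ∀ v ∈ Fintype.piFinset fun _ : Fin L => fs (Dm Y) m,
      ∀ i < L, Dm Y (F v i) ∧ (F v i).length = m := by
    intro v hv i hi
    rw [Fintype.mem_piFinset] at hv
    have := hv ⟨i, hi⟩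
    rw [mem_fs] at this
    rw [hFi v ⟨i, hi⟩]
    exact this
  rw [h1, ← Set.ncard_coe_finset]
  refine Set.ncard_le_ncard_of_injOn (fun v => wk Y L m (m * L + r) P (F v)) ?_ ?_
    ((walks_finite _).subset fun ω hω => hω.1)
  · intro v hv
    rw [mem_coe] at hv
    exact ⟨wk_mem hY hL hm hrm hrY hadj hinj hP0 (hFw v hv), hQ _ (hFw v hv)⟩
  · intro v hv v' hv' h
    rw [mem_coe] at hv hv'
    have h2 := wk_inj hY hL hm hrm hrY hadj hinj (hFw v hv) (hFw v' hv') h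
    funext i
    have := h2 i i.2
    rwa [hFi, hFi] at this

end

/-- **Walks following a simple curve.** -/
theorem supp (γ : C(unitInterval, ℂ)) (hγ : Function.Injective γ) (h0 : γ 0 = 0) {ε : ℝ}
    (hε : 0 < ε) : ∃ (K : ℝ) (n₀ : ℕ), ∀ n ≥ n₀, ∃ S : ℝ, 0 < S ∧ 1 / ε ≤ S ∧
      exp (-(K * log n ^ 3)) * c n ≤ ({ω | ω ∈ walks n ∧
        ∀ k : Fin (n + 1), ‖pt (ω k) - (S : ℂ) * cv γ ((k : ℝ) / n)‖ ≤ ε * S}.ncard : ℝ) := by
  obtain ⟨μ, K, hB⟩ := Pool.Agent.TH303.SX2.exists_Bd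
  obtain ⟨Kb, hKb, hb⟩ := exists_Kb
  have hμ0 : 0 < μ := by linarith [hB.one]
  have hlμ : 0 ≤ log μ := log_nonneg hB.one
  have hK2 := Pool.Agent.TH303.SX2.K2_nonneg hB.Kn
  have hKn := hB.Kn
  obtain ⟨C, hC⟩ : ∃ C, C = 12 * (4 * Pool.Agent.TH303.SX2.K2 K + 2 * K + Kb + 22) +
      45 * (Kb + 6) + 10 * log μ := ⟨_, rfl⟩
  have hC0 : 0 ≤ C := by rw [hC]; positivity
  obtain ⟨δ1, hδ1, huc⟩ := uc γ (half_pos hε)
  obtain ⟨εa, hεad⟩ : ∃ εa, εa = min (ε / 4) (δ1 / 2) := ⟨_, rfl⟩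
  have hεa : 0 < εa := by rw [hεad]; positivity
  have hεa1 : εa ≤ ε / 4 := by rw [hεad]; exact min_le_left _ _
  have hεa2 : εa ≤ δ1 / 2 := by rw [hεad]; exact min_le_right _ _
  obtain ⟨L, R, P, hL, hR1, hLa, hP0, hadj, hinj, hP⟩ := apx γ hγ h0 hεa
  have hR : 0 < R := lt_of_lt_of_le (by positivity) hR1
  refine ⟨C * L + K + L * log μ, L * (416 + 8 * (L + 2) ^ 2), fun n hn => ?_⟩
  obtain ⟨m, hm⟩ : ∃ m, m = n / L := ⟨_, rfl⟩
  obtain ⟨r, hr⟩ : ∃ r, r = n % L := ⟨_, rfl⟩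
  have hdm := Nat.div_add_mod n L
  have hmod := Nat.mod_lt n (by omega : 0 < L)
  rw [← hm, ← hr] at hdm
  rw [← hr] at hmod
  have hmge : 416 + 8 * (L + 2) ^ 2 ≤ m := by
    rw [hm, Nat.le_div_iff_mul_le (by omega)]
    rw [mul_comm]
    exact hn
  have hm416 : 416 ≤ m := by omega
  have hmL : L < m := by nlinarith
  have hnm : n = m * L + r := by rw [← hdm]; ring
  obtain ⟨Y, hY, hdmY⟩ := diam hB hKb hb hm416
  rw [← hC] at hdmY
  have hdmpos : 0 < dm Y m := by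
    have h1 : (0 : ℝ) < (dm Y m : ℝ) := lt_of_lt_of_le (by positivity) hdmY
    exact_mod_cast h1
  have hrY : (r : ℤ) < Y := by
    obtain ⟨w, hw⟩ := card_pos.1 hdmpos
    rw [mem_fs] at hw
    have h1 := hw.1.len hY
    rw [hw.2] at h1
    have h2 : (L + 2) ^ 2 < (Y.toNat + 1) ^ 2 := by omega
    have h3 : L + 2 < Y.toNat + 1 := lt_of_pow_lt_pow_left₀ 2 (by omega) h2
    omega
  refine ⟨Y * R, ?_, ?_, ?_⟩
  · have : (0 : ℝ) < Y := by exact_mod_cast (by omega : 0 < Y)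
    positivity
  · have hYr : (1 : ℝ) ≤ (Y : ℝ) := by exact_mod_cast hY
    have h1 : 1 / ε ≤ 1 / εa := one_div_le_one_div_of_le hεa (by linarith)
    nlinarith
  · have hcount := dm_pow_le hY hL (by omega : 1 ≤ m) (by omega : r < m) hrY hadj hinj hP0
      (fun ω => ∀ k : Fin (m * L + r + 1), ‖pt (ω k) - ((Y * R : ℝ) : ℂ) *
        cv γ ((k : ℝ) / (m * L + r : ℕ))‖ ≤ ε * (Y * R)) (by
      intro w hw k
      refine (wk_close hY hL (by omega : 1 ≤ m) (by omega : r < m) hrY hadj hinj hR hεa hR1 hLa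
        (by linarith) hmL.le huc hP hw k).trans ?_
      have : (0 : ℝ) < Y := by exact_mod_cast (by omega : 0 < Y)
      have : 0 < (Y : ℝ) * R := by positivity
      nlinarith)
    rw [hnm]
    have hcount' : (dm Y m : ℝ) ^ L ≤ ({ω | ω ∈ walks (m * L + r) ∧
        ∀ k : Fin (m * L + r + 1), ‖pt (ω k) - ((Y * R : ℝ) : ℂ) *
          cv γ ((k : ℝ) / (m * L + r : ℕ))‖ ≤ ε * (Y * R)}.ncard : ℝ) := by exact_mod_cast hcount
    refine le_trans ?_ hcount'
    rw [← hnm]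
    -- numerics
    have hn2 : 2 ≤ n := by
      rw [hnm]
      nlinarith
    have hmn : m ≤ n := by rw [hm]; exact Nat.div_le_self _ _
    have hmr : (416 : ℝ) ≤ m := by exact_mod_cast hm416
    have hnr : (416 : ℝ) ≤ n := by exact_mod_cast hm416.trans hmn
    have hl1 : 1 ≤ log (n : ℝ) := by
      rw [← log_exp 1]
      apply log_le_log (exp_pos _)
      have := exp_one_lt_d9
      linarith
    have hlm : log (m : ℝ) ≤ log n := log_le_log (by linarith) (by exact_mod_cast hmn)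
    have hlm0 : 0 ≤ log (m : ℝ) := log_natCast_nonneg m
    have hl3 : log (m : ℝ) ^ 3 ≤ log n ^ 3 := pow_le_pow_left₀ hlm0 hlm 3
    have hLr : (0 : ℝ) ≤ L := Nat.cast_nonneg L
    have s1 : μ ^ (m * L) * exp (-(C * L * log n ^ 3)) ≤ (dm Y m : ℝ) ^ L := by
      calc μ ^ (m * L) * exp (-(C * L * log n ^ 3))
          = (μ ^ m * exp (-(C * log n ^ 3))) ^ L := by
            rw [mul_pow, ← pow_mul, ← exp_nat_mul]
            congr 2
            ring
        _ ≤ (μ ^ m * exp (-(C * log m ^ 3))) ^ L := by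
            gcongr
        _ ≤ _ := by gcongr
    have s2 := hB.up n hn2
    have s3 : μ ^ n ≤ μ ^ (m * L) * exp (L * log μ) := by
      have e1 : μ ^ n = μ ^ (m * L) * μ ^ r := by rw [← pow_add, ← hnm]
      have e2 : exp (L * log μ) = μ ^ L := by rw [exp_nat_mul, exp_log hμ0]
      rw [e1, e2]
      have : μ ^ r ≤ μ ^ L := pow_le_pow_right₀ hB.one (by omega)
      gcongr
    have hl0 : 0 ≤ log (n : ℝ) := by linarith
    calc exp (-((C * L + K + L * log μ) * log n ^ 3)) * c n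
        ≤ exp (-((C * L + K + L * log μ) * log n ^ 3)) *
          ((μ ^ (m * L) * exp (L * log μ)) * exp (K * log n ^ 2)) := by
          refine mul_le_mul_of_nonneg_left (s2.trans ?_) (exp_pos _).le
          gcongr
      _ = μ ^ (m * L) * exp (-((C * L + K + L * log μ) * log n ^ 3) + L * log μ +
          K * log n ^ 2) := by rw [exp_add, exp_add]; ring
      _ ≤ μ ^ (m * L) * exp (-(C * L * log n ^ 3)) := by
          gcongr
          have a1 : log (n : ℝ) ^ 2 ≤ log n ^ 3 := pow_le_pow_right₀ hl1 (by norm_num)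
          have a2 : 1 ≤ log (n : ℝ) ^ 3 := one_le_pow₀ hl1
          have a3 : 0 ≤ L * log μ := by positivity
          nlinarith [mul_le_mul_of_nonneg_left a1 hKn, mul_le_mul_of_nonneg_left a2 a3]
      _ ≤ _ := s1

end Pool.Agent.N941.SP
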