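import Pool.Agent.N941.SP.Cur

/-!
Every simple curve is approximated by self-avoiding lattice paths with constant speed.
-/

set_option autoImplicit false

namespace Pool.Agent.N941.SP

open Pool.Agent.H122R3.SX (Adj V W)

theorem dia_norm {Y : ℤ} {z : ℤ × ℤ} (h : dia Y z) : |z.1| + |z.2| ≤ Y := by
  unfold dia at h
  have h0 := abs_nonneg z.1
  rcases abs_cases (2 * z.2 - Y) with h1 | h1 <;> rcases abs_cases z.2 with h2 | h2 <;> omega

theorem Blk.norm {Y : ℤ} {q : ℕ} {d : ℕ → ℤ × ℤ} (hY : 0 ≤ Y) (h : Blk Y q d) {s : ℕ} (hs : s ≤ q) :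
    |(d s).1| + |(d s).2| ≤ Y := by
  rcases Nat.eq_zero_or_pos s with h0 | h0
  · rw [h0, h.zero]
    simpa using hY
  · exact dia_norm (h.dia s h0 hs)

theorem subst_close {Y : ℤ} {L r : ℕ} {p : ℕ → ℤ × ℤ} {τ : ℕ → ℕ} {d : ℕ → ℕ → ℤ × ℤ}
    (hY : 0 ≤ Y) (hp : Lp L p) (hτ : StrictMono τ) (h0 : τ 0 = 0)
    (hf : ∀ i < L, Fl Y (τ (i + 1) - τ i) (d i)) (hr : Blk Y r (d L))
    (hrL : τ L + r < τ (L + 1)) {k : ℕ} (hk : k ≤ τ L + r) :
    ‖pt (subst Y p τ d k) - (Y : ℂ) * pt (p (idx τ k))‖ ≤ Y := by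
  obtain ⟨h1, h2⟩ := idx_spec hτ h0 k
  obtain ⟨i, hi⟩ : ∃ i, i = idx τ k := ⟨_, rfl⟩
  have hiL : i ≤ L := by rw [hi]; exact idx_le hτ h0 (by omega)
  rw [← hi] at h1 h2 ⊢
  have hd : |(d i (k - τ i)).1| + |(d i (k - τ i)).2| ≤ Y := by
    rcases Nat.lt_or_ge i L with h4 | h4
    · exact (hf i h4).blk.norm hY (by omega)
    · have : i = L := by omega
      subst this
      exact hr.norm hY (by omega)
  unfold subst
  rw [← hi, pt_add, pt_sc, add_sub_cancel_left]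
  refine (pt_norm_le _).trans ?_
  rw [rot_norm (hp.un i hiL)]
  exact_mod_cast hd

theorem cv_of_mem (γ : C(unitInterval, ℂ)) {t : ℝ} (ht : t ∈ Set.Icc (0 : ℝ) 1) :
    cv γ t = γ ⟨t, ht⟩ := by
  unfold cv
  rw [Set.projIcc_of_mem zero_le_one ht]

theorem apx (γ : C(unitInterval, ℂ)) (hγ : Function.Injective γ) (h0 : γ 0 = 0) {ε : ℝ}
    (hε : 0 < ε) : ∃ (L : ℕ) (R : ℝ) (P : ℕ → ℤ × ℤ), 1 ≤ L ∧ 1 / ε ≤ R ∧ 1 / ε ≤ L ∧ P 0 = 0 ∧
      (∀ i < L, Adj (P i) (P (i + 1))) ∧ (∀ i ≤ L, ∀ j ≤ L, P i = P j → i = j) ∧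
      ∀ k ≤ L, ‖pt (P k) - R * cv γ ((k : ℝ) / L)‖ ≤ ε * R := by
  obtain ⟨δ0, hδ0, huc0⟩ := uc γ (half_pos hε)
  obtain ⟨δ, hδd⟩ : ∃ δ, δ = min (δ0 / 3) (1 / 4) := ⟨_, rfl⟩
  have hδ : 0 < δ := by rw [hδd]; positivity
  have hδ1 : δ ≤ δ0 / 3 := by rw [hδd]; exact min_le_left _ _
  have hδ2 : δ ≤ 1 / 4 := by rw [hδd]; exact min_le_right _ _
  obtain ⟨ρ, hρ, hsep⟩ := sep γ hγ hδ
  obtain ⟨M, hM⟩ : ∃ M : ℕ, M = ⌈8 / ρ⌉₊ + ⌈10 / ε⌉₊ + 1 := ⟨_, rfl⟩
  have hM1 : 1 ≤ M := by omega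
  have hMr : (0 : ℝ) < M := by exact_mod_cast hM1
  have hM8 : 8 / (M : ℝ) ≤ ρ := by
    rw [div_le_iff₀ hMr]
    have h1 := Nat.le_ceil (8 / ρ)
    have h2 : (⌈8 / ρ⌉₊ : ℝ) ≤ M := by
      exact_mod_cast (by omega : ⌈8 / ρ⌉₊ ≤ M)
    rw [div_le_iff₀ hρ] at h1
    nlinarith
  have hM10 : 10 ≤ ε * M := by
    have h1 := Nat.le_ceil (10 / ε)
    have h2 : (⌈10 / ε⌉₊ : ℝ) ≤ M := by
      exact_mod_cast (by omega : ⌈10 / ε⌉₊ ≤ M)
    rw [div_le_iff₀ hε] at h1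
    nlinarith
  obtain ⟨δ1, hδ1p, huc1⟩ := uc γ (ε := 1 / M) (by positivity)
  obtain ⟨N, hN⟩ : ∃ N : ℕ, N = ⌈1 / δ1⌉₊ + ⌈1 / δ⌉₊ + ⌈1 / ε⌉₊ + 1 := ⟨_, rfl⟩
  have hN1 : 1 ≤ N := by omega
  have hNr : (0 : ℝ) < N := by exact_mod_cast hN1
  have hNδ1 : 1 / (N : ℝ) ≤ δ1 := by
    rw [div_le_iff₀ hNr]
    have h1 := Nat.le_ceil (1 / δ1)
    have h2 : (⌈1 / δ1⌉₊ : ℝ) ≤ N := by
      exact_mod_cast (by omega : ⌈1 / δ1⌉₊ ≤ N)
    rw [div_le_iff₀ hδ1p] at h1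
    nlinarith
  have hNδ : 1 / (N : ℝ) ≤ δ := by
    rw [div_le_iff₀ hNr]
    have h1 := Nat.le_ceil (1 / δ)
    have h2 : (⌈1 / δ⌉₊ : ℝ) ≤ N := by
      exact_mod_cast (by omega : ⌈1 / δ⌉₊ ≤ N)
    rw [div_le_iff₀ hδ] at h1
    nlinarith
  have hNε : 1 / ε ≤ (N : ℝ) := by
    have h1 := Nat.le_ceil (1 / ε)
    have h2 : (⌈1 / ε⌉₊ : ℝ) ≤ N := by
      exact_mod_cast (by omega : ⌈1 / ε⌉₊ ≤ N)
    linarith
  have huc1' : ∀ s t : unitInterval, |(s : ℝ) - t| ≤ 1 / N → ‖γ s - γ t‖ ≤ 1 / M :=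
    fun s t hst => huc1 s t (hst.trans hNδ1)
  obtain ⟨q, hq⟩ : ∃ q, q = dis γ M N := ⟨_, rfl⟩
  have hqadj : ∀ k, q k = q (k + 1) ∨ Adj (q k) (q (k + 1)) := by
    rw [hq]; exact dis_adj hM1 hN1 huc1'
  have hqclose : ∀ k : ℕ, ‖pt (q k) - M * cv γ ((k : ℝ) / (2 * N))‖ ≤ 4 := by
    rw [hq]; exact dis_close hM1 hN1 huc1'
  have hq0 : q 0 = 0 := by
    rw [hq]
    unfold dis
    have h1 : cv γ 0 = 0 := by
      rw [cv_of_mem γ ⟨le_rfl, zero_le_one⟩]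
      exact h0
    norm_num [h1]
  have h2N : (0 : ℝ) < 2 * N := by positivity
  -- loops are short
  have hloop : ∀ a b : ℕ, a ≤ 2 * N → b ≤ 2 * N → q a = q b →
      |(a : ℝ) / (2 * N) - (b : ℝ) / (2 * N)| ≤ δ := by
    intro a b ha hb hab
    have m : ∀ c : ℕ, c ≤ 2 * N → (c : ℝ) / (2 * N) ∈ Set.Icc (0 : ℝ) 1 := by
      intro c hc
      refine ⟨by positivity, ?_⟩
      rw [div_le_one h2N]
      exact_mod_cast hc
    have h1 := hqclose a
    have h2 := hqclose b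
    rw [← hab] at h2
    have h3 : ‖(M : ℂ) * (cv γ ((a : ℝ) / (2 * N)) - cv γ ((b : ℝ) / (2 * N)))‖ ≤ 8 := by
      have e : (M : ℂ) * (cv γ ((a : ℝ) / (2 * N)) - cv γ ((b : ℝ) / (2 * N))) =
          (pt (q a) - M * cv γ ((b : ℝ) / (2 * N))) - (pt (q a) - M * cv γ ((a : ℝ) / (2 * N))) := by
        ring
      rw [e]
      exact (norm_sub_le _ _).trans (by linarith)
    rw [norm_mul, Complex.norm_natCast] at h3
    have h4 : ‖cv γ ((a : ℝ) / (2 * N)) - cv γ ((b : ℝ) / (2 * N))‖ ≤ ρ := by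
      refine le_trans ?_ hM8
      rw [le_div_iff₀ hMr]
      linarith
    rw [cv_of_mem γ (m a ha), cv_of_mem γ (m b hb)] at h4
    exact hsep _ _ h4
  obtain ⟨ℓ, t, -, t0, tℓ, tlt, tle, tq, tlast⟩ := loop_erase q (2 * N) (2 * N) 0 (Nat.zero_le _) rfl
  have ht0 : ((t 0 : ℕ) : ℝ) / (2 * N) ≤ δ := by
    have h1 := hloop (t 0) 0 (tle 0 (Nat.zero_le _)) (Nat.zero_le _) t0
    rw [Nat.cast_zero, zero_div, sub_zero, abs_of_nonneg (by positivity)] at h1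
    exact h1
  have hℓ : 1 ≤ ℓ := by
    by_contra hc
    have h1 : ℓ = 0 := by omega
    rw [h1] at tℓ
    rw [tℓ] at ht0
    push_cast at ht0
    rw [div_self h2N.ne'] at ht0
    linarith
  have hgap : ∀ i < ℓ, ((t (i + 1) : ℕ) : ℝ) / (2 * N) - ((t i : ℕ) : ℝ) / (2 * N) ≤ 2 * δ := by
    intro i hi
    have h1 := tlt i hi
    have h2 := tle (i + 1) (by omega)
    have h3 := hloop (t (i + 1)) (t i + 1) h2 (by omega) (tq i hi).symm
    rw [abs_le] at h3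
    have h4 : (((t i + 1 : ℕ) : ℕ) : ℝ) / (2 * N) = ((t i : ℕ) : ℝ) / (2 * N) + 1 / (2 * N) := by
      push_cast; ring
    have h5 : 1 / (2 * (N : ℝ)) ≤ δ := by
      refine le_trans ?_ hNδ
      apply one_div_le_one_div_of_le hNr
      linarith
    rw [h4] at h3
    linarith [h3.2]
  obtain ⟨p, hp⟩ : ∃ p : ℕ → ℤ × ℤ, p = fun i => q (t i) := ⟨_, rfl⟩
  have hpinj : ∀ i ≤ ℓ, ∀ j ≤ ℓ, p i = p j → i = j := by
    have htm : ∀ i j, i < j → j ≤ ℓ → t i < t j := by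
      intro i j hij
      induction j, hij using Nat.le_induction with
      | base => intro h; exact tlt i (by omega)
      | succ j hj ih => intro h; exact (ih (by omega)).trans (tlt j (by omega))
    have main : ∀ i j, i < j → j ≤ ℓ → p i ≠ p j := by
      intro i j hij hj h
      rw [hp] at h
      exact tlast i (by omega) (t j) (htm i j hij hj) (tle j hj) h.symm
    intro i hi j hj h
    rcases Nat.lt_trichotomy i j with h1 | h1 | h1
    · exact absurd h (main i j h1 hj)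
    · exact h1
    · exact absurd h.symm (main j i h1 hi)
  have hpadj : ∀ i < ℓ, Adj (p i) (p (i + 1)) := by
    intro i hi
    rw [hp]
    simp only
    rw [← tq i hi]
    rcases hqadj (t i) with h1 | h1
    · exfalso
      have := tlt i hi
      have := tle (i + 1) (by omega)
      exact tlast i hi.le (t i + 1) (by omega) (by omega) h1.symm
    · exact h1
  have hlp := ext_lp hℓ hpadj hpinj
  -- the times
  obtain ⟨B, hB⟩ : ∃ B : ℕ, B = 8 * (5 * N) + 2 := ⟨_, rfl⟩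
  have hB1 : 1 ≤ B := by omega
  have hBr : (1 : ℝ) ≤ B := by exact_mod_cast hB1
  obtain ⟨tt, htt⟩ : ∃ tt : ℕ → ℕ, tt = fun i => if i = 0 then 0 else if i ≤ ℓ then t i else
    2 * N + (i - ℓ) := ⟨_, rfl⟩
  have tt0 : tt 0 = 0 := by rw [htt]; simp
  have tti : ∀ i, 1 ≤ i → i ≤ ℓ → tt i = t i := by
    intro i h1 h2
    rw [htt]
    simp only
    rw [if_neg (by omega), if_pos h2]
  have ttle : ∀ i ≤ ℓ, tt i ≤ t i := by
    intro i hi
    rcases Nat.eq_zero_or_pos i with h | h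
    · rw [h, tt0]; exact Nat.zero_le _
    · rw [tti i h hi]
  have ttℓ : tt ℓ = 2 * N := by rw [tti ℓ hℓ le_rfl, tℓ]
  have ttm : StrictMono tt := by
    apply strictMono_nat_of_lt_succ
    intro i
    rcases Nat.lt_or_ge i ℓ with h | h
    · rw [tti (i + 1) (by omega) (by omega)]
      exact lt_of_le_of_lt (ttle i h.le) (tlt i h)
    · rcases Nat.eq_or_lt_of_le h with h1 | h1
      · rw [← h1, ttℓ, htt]
        simp only
        rw [if_neg (by omega), if_neg (by omega)]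
        omega
      · rw [htt]
        simp only
        rw [if_neg (by omega), if_neg (by omega), if_neg (by omega), if_neg (by omega)]
        omega
  obtain ⟨τ, hτd⟩ : ∃ τ : ℕ → ℕ, τ = fun i => B * tt i := ⟨_, rfl⟩
  have hτ : StrictMono τ := by
    rw [hτd]
    intro i j hij
    exact Nat.mul_lt_mul_of_pos_left (ttm hij) (by omega)
  have hτ0 : τ 0 = 0 := by rw [hτd]; simp [tt0]
  have hτℓ : τ ℓ = B * (2 * N) := by rw [hτd]; simp only [ttℓ]
  -- the wiggles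
  have hwig : ∀ i < ℓ, ∃ w : W, Dm (B : ℤ) w ∧ w.length = τ (i + 1) - τ i := by
    intro i hi
    have h1 := ttm (Nat.lt_add_one i)
    have h2 : tt (i + 1) ≤ 2 * N := by
      rw [← ttℓ]
      exact ttm.monotone (by omega)
    obtain ⟨g, hg⟩ : ∃ g, g = tt (i + 1) - tt i - 1 := ⟨_, rfl⟩
    obtain ⟨w, hw, hl⟩ := exists_wiggle (a := 5 * N) (E := (4 * (5 * N) + 1) * g) (by omega) (by
      have h3 : g ≤ 2 * N := by omega
      calc (4 * (5 * N) + 1) * g ≤ (5 * (5 * N)) * (2 * N) := by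
            apply Nat.mul_le_mul _ h3
            omega
        _ = _ := by ring)
    refine ⟨w, ?_, ?_⟩
    · rw [hB]; exact hw
    · rw [hl, hτd]
      simp only
      rw [← Nat.mul_sub, show tt (i + 1) - tt i = g + 1 by omega, hB]
      ring
  choose! w hw hwl using hwig
  obtain ⟨d, hd⟩ : ∃ d : ℕ → ℕ → ℤ × ℤ, d = fun i s => V ((w i).take s) := ⟨_, rfl⟩
  have hBz : (1 : ℤ) ≤ B := by exact_mod_cast hB1
  have hf : ∀ i < ℓ, Fl (B : ℤ) (τ (i + 1) - τ i) (d i) := by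
    intro i hi
    rw [← hwl i hi, hd]
    exact (hw i hi).fl hBz
  have hdz : ∀ i, d i 0 = 0 := by
    intro i
    rw [hd]
    simp [V]
  have hr : Blk (B : ℤ) 0 (d ℓ) := by
    refine ⟨hdz ℓ, ?_, ?_, ?_⟩
    · intro s hs s' hs' _; omega
    · intro s hs; omega
    · intro s hs hs'; omega
  have hrL : τ ℓ + 0 < τ (ℓ + 1) := hτ (Nat.lt_add_one ℓ)
  refine ⟨B * (2 * N), M * B, subst B (ext ℓ p) τ d, ?_, ?_, ?_, ?_, ?_, ?_, ?_⟩
  · exact Nat.mul_pos (by omega) (by omega)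
  · have h1 : 1 / ε ≤ M := by
      rw [div_le_iff₀ hε]
      nlinarith
    nlinarith
  · push_cast
    nlinarith
  · have h1 := subst_tau (Y := (B : ℤ)) (p := ext ℓ p) (τ := τ) (d := d) hτ hτ0 (i := 0) (hdz 0)
    rw [hτ0] at h1
    rw [h1, ext_of_le (Nat.zero_le _), hp]
    simp only
    rw [t0, hq0]
    simp [sc]
  · intro k hk
    rw [← hτℓ] at hk
    exact subst_adj hlp hτ hτ0 hf hr hrL (by omega)
  · intro k hk k' hk' h
    rw [← hτℓ] at hk hk'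
    exact subst_inj hBz hlp hτ hτ0 hf hr hrL (by omega) (by omega) h
  · intro k hk
    rw [← hτℓ] at hk
    have h1 := subst_close (by omega : (0 : ℤ) ≤ B) hlp hτ hτ0 hf hr hrL (k := k) (by omega)
    obtain ⟨i, hi⟩ : ∃ i, i = idx τ k := ⟨_, rfl⟩
    obtain ⟨h2, h3⟩ := idx_spec hτ hτ0 k
    rw [← hi] at h1 h2 h3
    have hiℓ : i ≤ ℓ := by rw [hi]; exact idx_le hτ hτ0 (by omega)
    rw [ext_of_le hiℓ] at h1
    have h4 := hqclose (t i)
    have hLr : (0 : ℝ) < ((B * (2 * N) : ℕ) : ℝ) := by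
      exact_mod_cast Nat.mul_pos (by omega) (by omega)
    have hBr0 : (0 : ℝ) < B := by linarith
    -- time comparison
    have h5 : |((t i : ℕ) : ℝ) / (2 * N) - (k : ℝ) / ((B * (2 * N) : ℕ) : ℝ)| ≤ δ0 := by
      have e1 : ((tt i : ℕ) : ℝ) / (2 * N) ≤ (k : ℝ) / ((B * (2 * N) : ℕ) : ℝ) := by
        rw [div_le_div_iff₀ h2N hLr]
        have h6 : B * tt i ≤ k := by rw [hτd] at h2; exact h2
        have h7 : (B : ℝ) * (tt i : ℕ) ≤ k := by exact_mod_cast h6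
        push_cast
        nlinarith
      have e2 : ((t i : ℕ) : ℝ) / (2 * N) - ((tt i : ℕ) : ℝ) / (2 * N) ≤ δ := by
        rcases Nat.eq_zero_or_pos i with h | h
        · rw [h, tt0, Nat.cast_zero, zero_div, sub_zero]
          exact ht0
        · rw [tti i h hiℓ, sub_self]
          exact hδ.le
      have e3 : (k : ℝ) / ((B * (2 * N) : ℕ) : ℝ) - ((t i : ℕ) : ℝ) / (2 * N) ≤ 2 * δ := by
        rcases Nat.lt_or_ge i ℓ with h | h
        · have h6 : (k : ℝ) / ((B * (2 * N) : ℕ) : ℝ) ≤ ((t (i + 1) : ℕ) : ℝ) / (2 * N) := by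
            rw [div_le_div_iff₀ hLr h2N]
            have h7 : k < B * tt (i + 1) := by rw [hτd] at h3; exact h3
            rw [tti (i + 1) (by omega) (by omega)] at h7
            have h8 : (k : ℝ) ≤ (B : ℝ) * (t (i + 1) : ℕ) := by exact_mod_cast h7.le
            push_cast
            nlinarith
          have := hgap i h
          linarith
        · have h9 : i = ℓ := by omega
          rw [h9, tℓ]
          push_cast
          rw [div_self h2N.ne']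
          have h6 : (k : ℝ) / ((B : ℝ) * (2 * N)) ≤ 1 := by
            rw [div_le_one (by positivity)]
            have h7 : k ≤ B * (2 * N) := by omega
            exact_mod_cast h7
          linarith
      rw [abs_le]
      constructor <;> linarith
    have h6 := cv_close huc0 h5
    have e : pt (subst B (ext ℓ p) τ d k) - ((M : ℝ) * (B : ℝ) : ℝ) *
        cv γ ((k : ℝ) / ((B * (2 * N) : ℕ) : ℝ)) =
        (pt (subst B (ext ℓ p) τ d k) - ((B : ℤ) : ℂ) * pt (p i)) +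
        (B : ℂ) * (pt (q (t i)) - M * cv γ (((t i : ℕ) : ℝ) / (2 * N))) +
        (B : ℂ) * (M * (cv γ (((t i : ℕ) : ℝ) / (2 * N)) -
          cv γ ((k : ℝ) / ((B * (2 * N) : ℕ) : ℝ)))) := by
      rw [hp]
      push_cast
      ring
    rw [e]
    refine (norm_add₃_le).trans ?_
    rw [norm_mul, norm_mul, norm_mul, Complex.norm_natCast, Complex.norm_natCast]
    have h7 : (B : ℝ) * ‖pt (q (t i)) - M * cv γ (((t i : ℕ) : ℝ) / (2 * N))‖ ≤ B * 4 := by gcongr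
    have h8 : (B : ℝ) * (M * ‖cv γ (((t i : ℕ) : ℝ) / (2 * N)) -
          cv γ ((k : ℝ) / ((B * (2 * N) : ℕ) : ℝ))‖) ≤ B * (M * (ε / 2)) := by gcongr
    have h9 : ‖pt (subst B (ext ℓ p) τ d k) - ((B : ℤ) : ℂ) * pt (p i)‖ ≤ (B : ℝ) := by
      exact_mod_cast h1
    nlinarith

end Pool.Agent.N941.SP
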