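import Pool.Agent.N941.SP.Wig

/-!
Approximation of simple curves by self-avoiding lattice paths with constant speed.
-/

set_option autoImplicit false

namespace Pool.Agent.N941.SP

open Pool.Agent.H122R3.SX (Adj V W)

/-! ### loop erasure -/

theorem loop_erase (q : ℕ → ℤ × ℤ) (T : ℕ) : ∀ m s, s ≤ T → T - s = m →
    ∃ (ℓ : ℕ) (t : ℕ → ℕ), s ≤ t 0 ∧ q (t 0) = q s ∧ t ℓ = T ∧
      (∀ i < ℓ, t i < t (i + 1)) ∧ (∀ i ≤ ℓ, t i ≤ T) ∧
      (∀ i < ℓ, q (t i + 1) = q (t (i + 1))) ∧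
      (∀ i ≤ ℓ, ∀ u, t i < u → u ≤ T → q u ≠ q (t i)) := by
  intro m
  induction m using Nat.strong_induction_on with
  | _ m ih =>
    intro s hs hm
    obtain ⟨s', hs'⟩ : ∃ s', s' = Nat.findGreatest (fun u => q u = q s) T := ⟨_, rfl⟩
    have h1 : q s' = q s := by
      rw [hs']
      exact Nat.findGreatest_spec (P := fun u => q u = q s) hs rfl
    have h2 : s ≤ s' := by
      rw [hs']
      exact Nat.le_findGreatest hs rfl
    have h3 : s' ≤ T := by rw [hs']; exact Nat.findGreatest_le T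
    have h4 : ∀ u, s' < u → u ≤ T → q u ≠ q s' := by
      intro u hu hu'
      rw [h1]
      rw [hs'] at hu
      exact Nat.findGreatest_is_greatest (P := fun u => q u = q s) hu hu'
    rcases Nat.lt_or_ge s' T with h5 | h5
    · obtain ⟨ℓ, t, a1, a2, a3, a4, a5, a6, a7⟩ := ih (T - (s' + 1)) (by omega) (s' + 1) (by omega) rfl
      refine ⟨ℓ + 1, fun i => if i = 0 then s' else t (i - 1), ?_, ?_, ?_, ?_, ?_, ?_, ?_⟩
      · simp only [if_true]; exact h2
      · simp only [if_true]; exact h1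
      · simp only [Nat.add_eq_zero_iff, one_ne_zero, and_false, if_false, Nat.add_sub_cancel]
        exact a3
      · intro i hi
        simp only [Nat.add_eq_zero_iff, one_ne_zero, and_false, if_false, Nat.add_sub_cancel]
        split_ifs with h
        · subst h; omega
        · have := a4 (i - 1) (by omega)
          rwa [show i - 1 + 1 = i by omega] at this
      · intro i hi
        dsimp only
        split_ifs with h
        · exact h3
        · exact a5 _ (by omega)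
      · intro i hi
        simp only [Nat.add_eq_zero_iff, one_ne_zero, and_false, if_false, Nat.add_sub_cancel]
        split_ifs with h
        · subst h; exact a2.symm
        · have := a6 (i - 1) (by omega)
          rwa [show i - 1 + 1 = i by omega] at this
      · intro i hi u hu hu'
        dsimp only at hu ⊢
        split_ifs at hu ⊢ with h
        · exact h4 u hu hu'
        · exact a7 _ (by omega) u hu hu'
    · have h6 : s' = T := by omega
      refine ⟨0, fun _ => T, hs, ?_, rfl, ?_, ?_, ?_, ?_⟩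
      · rw [← h6]; exact h1
      · intro i hi; omega
      · intro i _; exact le_rfl
      · intro i hi; omega
      · intro i _ u hu hu'
        dsimp only at hu
        omega

/-! ### compactness -/

theorem uc (γ : C(unitInterval, ℂ)) {ε : ℝ} (hε : 0 < ε) : ∃ δ > 0, ∀ s t : unitInterval,
    |(s : ℝ) - t| ≤ δ → ‖γ s - γ t‖ ≤ ε := by
  have h := CompactSpace.uniformContinuous_of_continuous γ.continuous
  rw [Metric.uniformContinuous_iff] at h
  obtain ⟨δ, hδ, h⟩ := h ε hε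
  refine ⟨δ / 2, by positivity, fun s t hst => ?_⟩
  have h1 : dist s t < δ := by
    rw [Subtype.dist_eq, Real.dist_eq]
    linarith
  have := h h1
  rw [dist_eq_norm] at this
  exact this.le

theorem sep (γ : C(unitInterval, ℂ)) (hγ : Function.Injective γ) {δ : ℝ} (hδ : 0 < δ) :
    ∃ ρ > 0, ∀ s t : unitInterval, ‖γ s - γ t‖ ≤ ρ → |(s : ℝ) - t| ≤ δ := by
  obtain ⟨K, hK⟩ : ∃ K : Set (unitInterval × unitInterval), K = {p | δ ≤ |(p.1 : ℝ) - p.2|} :=
    ⟨_, rfl⟩
  have hKc : IsCompact K := by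
    rw [hK]
    apply IsClosed.isCompact
    apply isClosed_le continuous_const
    fun_prop
  rcases K.eq_empty_or_nonempty with h | h
  · refine ⟨1, one_pos, fun s t _ => ?_⟩
    by_contra hc
    have : (s, t) ∈ K := by rw [hK]; exact (not_le.1 hc).le
    rw [h] at this
    exact this
  · obtain ⟨p, hp, hmin⟩ := hKc.exists_isMinOn h
      (f := fun p : unitInterval × unitInterval => ‖γ p.1 - γ p.2‖) (by fun_prop)
    have h0 : 0 < ‖γ p.1 - γ p.2‖ := by
      rw [norm_pos_iff, sub_ne_zero]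
      intro h1
      have h2 := hγ h1
      rw [hK, Set.mem_setOf_eq, h2, sub_self, abs_zero] at hp
      linarith
    refine ⟨‖γ p.1 - γ p.2‖ / 2, by positivity, fun s t hst => ?_⟩
    by_contra hc
    have h1 : (s, t) ∈ K := by rw [hK]; exact (not_le.1 hc).le
    have h2 := hmin h1
    simp only [Set.mem_setOf_eq] at h2
    linarith

/-! ### lattice points and the plane -/

/-- a lattice point as a point of the plane -/
noncomputable def pt (p : ℤ × ℤ) : ℂ := (p.1 : ℂ) + (p.2 : ℂ) * Complex.I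

theorem pt_re (p : ℤ × ℤ) : (pt p).re = p.1 := by simp [pt]
theorem pt_im (p : ℤ × ℤ) : (pt p).im = p.2 := by simp [pt]

theorem pt_norm_le (p : ℤ × ℤ) : ‖pt p‖ ≤ ((|p.1| + |p.2| : ℤ) : ℝ) := by
  refine (Complex.norm_le_abs_re_add_abs_im _).trans ?_
  rw [pt_re, pt_im]
  push_cast
  exact le_rfl

theorem pt_add (p q : ℤ × ℤ) : pt (p + q) = pt p + pt q := by
  unfold pt
  simp only [Prod.fst_add, Prod.snd_add]
  push_cast
  ring

theorem pt_sub (p q : ℤ × ℤ) : pt (p - q) = pt p - pt q := by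
  unfold pt
  simp only [Prod.fst_sub, Prod.snd_sub]
  push_cast
  ring

theorem pt_sc (Y : ℤ) (p : ℤ × ℤ) : pt (sc Y p) = (Y : ℂ) * pt p := by
  unfold pt sc
  push_cast
  ring

/-- the curve at any real time -/
noncomputable def cv (γ : C(unitInterval, ℂ)) (t : ℝ) : ℂ := γ (Set.projIcc 0 1 zero_le_one t)

theorem proj_le (s t : ℝ) :
    |((Set.projIcc 0 1 zero_le_one s : unitInterval) : ℝ) - (Set.projIcc 0 1 zero_le_one t : unitInterval)| ≤ |s - t| := by
  rw [Set.coe_projIcc, Set.coe_projIcc]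
  have := abs_max_sub_max_le_abs (min 1 s) (min 1 t) (0 : ℝ)
  rw [max_comm 0, max_comm 0]
  refine this.trans ?_
  rw [min_comm 1 s, min_comm 1 t]
  exact abs_min_sub_min_le_max s 1 t 1 |>.trans (by simp)

theorem cv_close {γ : C(unitInterval, ℂ)} {δ ε : ℝ}
    (h : ∀ s t : unitInterval, |(s : ℝ) - t| ≤ δ → ‖γ s - γ t‖ ≤ ε) {s t : ℝ} (hst : |s - t| ≤ δ) :
    ‖cv γ s - cv γ t‖ ≤ ε := h _ _ ((proj_le s t).trans hst)

theorem floor_close {a b : ℝ} (h : |a - b| ≤ 1) : |⌊a⌋ - ⌊b⌋| ≤ 1 := by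
  rw [abs_le] at *
  have h1 : ⌊a⌋ ≤ ⌊b + 1⌋ := Int.floor_le_floor (by linarith)
  have h2 : ⌊b⌋ ≤ ⌊a + 1⌋ := Int.floor_le_floor (by linarith)
  rw [Int.floor_add_one] at h1 h2
  constructor <;> omega

/-- the discretization -/
noncomputable def dis (γ : C(unitInterval, ℂ)) (M N : ℕ) (k : ℕ) : ℤ × ℤ :=
  (⌊M * (cv γ ((((k + 1) / 2 : ℕ) : ℝ) / N)).re⌋, ⌊M * (cv γ (((k / 2 : ℕ) : ℝ) / N)).im⌋)

theorem dis_adj {γ : C(unitInterval, ℂ)} {M N : ℕ} (hM : 1 ≤ M) (hN : 1 ≤ N)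
    (h : ∀ s t : unitInterval, |(s : ℝ) - t| ≤ 1 / N → ‖γ s - γ t‖ ≤ 1 / M) (k : ℕ) :
    dis γ M N k = dis γ M N (k + 1) ∨ Adj (dis γ M N k) (dis γ M N (k + 1)) := by
  have hNr : (0 : ℝ) < N := by exact_mod_cast hN
  have hMr : (0 : ℝ) < M := by exact_mod_cast hM
  have key : ∀ j : ℕ, ‖cv γ ((j : ℝ) / N) - cv γ (((j + 1 : ℕ) : ℝ) / N)‖ ≤ 1 / M := by
    intro j
    apply cv_close h
    rw [← sub_div, abs_div, abs_of_pos hNr]
    push_cast
    rw [show (j : ℝ) - (j + 1) = -1 by ring, abs_neg, abs_one]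
  have fl : ∀ a b : ℝ, |a - b| ≤ 1 / M → |⌊M * a⌋ - ⌊M * b⌋| ≤ 1 := by
    intro a b hab
    apply floor_close
    rw [← mul_sub, abs_mul, abs_of_pos hMr]
    rw [le_div_iff₀ hMr] at hab
    linarith
  rcases Nat.even_or_odd' k with ⟨j, hj | hj⟩
  · subst hj
    have e1 : (2 * j + 1) / 2 = j := by omega
    have e2 : (2 * j) / 2 = j := by omega
    have e3 : (2 * j + 1 + 1) / 2 = j + 1 := by omega
    unfold dis
    rw [e1, e2, e3]
    have h1 := fl _ _ ((Complex.abs_re_le_norm _).trans (key j))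
    unfold Adj
    simp only [Prod.mk.injEq, sub_self, abs_zero, add_zero, and_true]
    rw [abs_le] at h1
    rcases abs_cases (⌊(M : ℝ) * (cv γ ((j : ℝ) / N)).re⌋ -
      ⌊(M : ℝ) * (cv γ (((j + 1 : ℕ) : ℝ) / N)).re⌋) with h2 | h2 <;> omega
  · subst hj
    have e1 : (2 * j + 1 + 1) / 2 = j + 1 := by omega
    have e2 : (2 * j + 1) / 2 = j := by omega
    have e3 : (2 * j + 1 + 1 + 1) / 2 = j + 1 := by omega
    unfold dis
    rw [e1, e2, e3]
    have h1 := fl _ _ ((Complex.abs_im_le_norm _).trans (key j))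
    unfold Adj
    simp only [Prod.mk.injEq, sub_self, abs_zero, zero_add, true_and]
    rw [abs_le] at h1
    rcases abs_cases (⌊(M : ℝ) * (cv γ ((j : ℝ) / N)).im⌋ -
      ⌊(M : ℝ) * (cv γ (((j + 1 : ℕ) : ℝ) / N)).im⌋) with h2 | h2 <;> omega

theorem dis_close {γ : C(unitInterval, ℂ)} {M N : ℕ} (hM : 1 ≤ M) (hN : 1 ≤ N)
    (h : ∀ s t : unitInterval, |(s : ℝ) - t| ≤ 1 / N → ‖γ s - γ t‖ ≤ 1 / M) (k : ℕ) :
    ‖pt (dis γ M N k) - M * cv γ ((k : ℝ) / (2 * N))‖ ≤ 4 := by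
  have hNr : (0 : ℝ) < N := by exact_mod_cast hN
  have hMr : (0 : ℝ) < M := by exact_mod_cast hM
  have key : ∀ a b : ℝ, |a - b| ≤ 1 / N → ‖cv γ a - cv γ b‖ ≤ 1 / M := fun a b hab => cv_close h hab
  have fl : ∀ a b : ℝ, |a - b| ≤ 1 / M → |(⌊M * a⌋ : ℝ) - M * b| ≤ 2 := by
    intro a b hab
    rw [le_div_iff₀ hMr] at hab
    have hab2 : |(a - b) * M| ≤ 1 := by rw [abs_mul, abs_of_pos hMr]; exact hab
    have h1 := Int.floor_le ((M : ℝ) * a)
    have h2 := Int.lt_floor_add_one ((M : ℝ) * a)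
    rw [abs_le] at hab2 ⊢
    constructor <;> nlinarith
  have t1 : |(((k + 1) / 2 : ℕ) : ℝ) / N - (k : ℝ) / (2 * N)| ≤ 1 / N := by
    have e : (((k + 1) / 2 : ℕ) : ℝ) / N - (k : ℝ) / (2 * N) =
        ((2 * ((k + 1) / 2 : ℕ) : ℝ) - k) / (2 * N) := by field_simp
    have b1 : (2 * ((k + 1) / 2 : ℕ) : ℝ) ≤ k + 1 := by
      exact_mod_cast (by omega : 2 * ((k + 1) / 2) ≤ k + 1)
    have b2 : (k : ℝ) ≤ (2 * ((k + 1) / 2 : ℕ) : ℝ) + 1 := by
      exact_mod_cast (by omega : k ≤ 2 * ((k + 1) / 2) + 1)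
    rw [e, abs_div, abs_of_pos (by positivity : (0 : ℝ) < 2 * N), div_le_div_iff₀ (by positivity) hNr]
    have : |(2 * ((k + 1) / 2 : ℕ) : ℝ) - k| ≤ 1 := by rw [abs_le]; constructor <;> linarith
    nlinarith
  have t2 : |((k / 2 : ℕ) : ℝ) / N - (k : ℝ) / (2 * N)| ≤ 1 / N := by
    have e : ((k / 2 : ℕ) : ℝ) / N - (k : ℝ) / (2 * N) =
        ((2 * (k / 2 : ℕ) : ℝ) - k) / (2 * N) := by field_simp
    have b1 : (2 * (k / 2 : ℕ) : ℝ) ≤ k := by
      exact_mod_cast (by omega : 2 * (k / 2) ≤ k)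
    have b2 : (k : ℝ) ≤ (2 * (k / 2 : ℕ) : ℝ) + 1 := by
      exact_mod_cast (by omega : k ≤ 2 * (k / 2) + 1)
    rw [e, abs_div, abs_of_pos (by positivity : (0 : ℝ) < 2 * N), div_le_div_iff₀ (by positivity) hNr]
    have : |(2 * (k / 2 : ℕ) : ℝ) - k| ≤ 1 := by rw [abs_le]; constructor <;> linarith
    nlinarith
  refine (Complex.norm_le_abs_re_add_abs_im _).trans ?_
  have r1 : (pt (dis γ M N k) - M * cv γ ((k : ℝ) / (2 * N))).re =
      (⌊M * (cv γ ((((k + 1) / 2 : ℕ) : ℝ) / N)).re⌋ : ℝ) - M * (cv γ ((k : ℝ) / (2 * N))).re := by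
    rw [Complex.sub_re, pt_re, Complex.mul_re, Complex.natCast_re, Complex.natCast_im, zero_mul,
      sub_zero]
    rfl
  have r2 : (pt (dis γ M N k) - M * cv γ ((k : ℝ) / (2 * N))).im =
      (⌊M * (cv γ (((k / 2 : ℕ) : ℝ) / N)).im⌋ : ℝ) - M * (cv γ ((k : ℝ) / (2 * N))).im := by
    rw [Complex.sub_im, pt_im, Complex.mul_im, Complex.natCast_re, Complex.natCast_im, zero_mul,
      add_zero]
    rfl
  rw [r1, r2]
  have s1 := fl _ _ (((Complex.abs_re_le_norm _).trans (key _ _ t1)))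
  have s2 := fl _ _ (((Complex.abs_im_le_norm _).trans (key _ _ t2)))
  linarith

end Pool.Agent.N941.SP
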