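import Pool.Agent.N941.SP.Bri

/-!
Popular bridges of small extent.
-/

set_option autoImplicit false

namespace Pool.Agent.N941.SP

open Finset Real
open Pool.Agent.H122R3.SX (W Saw UB G c ub ubx g fs mem_fs ub_le)
open Pool.Agent.TH303.SX2 (Bd)

/-- the threshold -/
noncomputable def thr (K Kb l : ℝ) : ℝ := exp (-((4 * Pool.Agent.TH303.SX2.K2 K + 2 * K + Kb + 22) * l ^ 2))

theorem l_le {n : ℕ} (hn : 2 ≤ n) : log n ≤ 3 / 2 * log n ^ 2 := by
  have h2 : (2 : ℝ) ≤ n := by exact_mod_cast hn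
  have h3 : log 2 ≤ log (n : ℝ) := log_le_log (by norm_num) h2
  have h4 : 0.6931471803 < log 2 := log_two_gt_d9
  nlinarith

theorem npow_le {n : ℕ} (hn : 2 ≤ n) (k : ℕ) : (n : ℝ) ^ k ≤ exp (3 / 2 * k * log n ^ 2) := by
  have h2 : (0 : ℝ) < n := by exact_mod_cast (by omega : 0 < n)
  have h := l_le hn
  calc (n : ℝ) ^ k = exp (k * log n) := by rw [exp_nat_mul, exp_log h2]
    _ ≤ _ := by
        apply exp_le_exp.2
        have : (0 : ℝ) ≤ k := Nat.cast_nonneg k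
        nlinarith [mul_le_mul_of_nonneg_left h this]

theorem pop {μ K Kb : ℝ} (h : Bd μ K) (hKb : 0 ≤ Kb)
    (hb : ∀ n : ℕ, 2 ≤ n → (c n : ℝ) * exp (-(Kb * log n ^ 2)) ≤ bw n)
    {n S n1 : ℕ} (hn : 2 ≤ n) (hS : 1 ≤ S) (hSn : S ≤ n) (hn1 : 2 ≤ n1) (hn1n : n1 ≤ n)
    (hsm : ∀ m ≤ n1, ∀ x : ℤ, |x| ≤ S → (ubx m x S : ℝ) < thr K Kb (log n) * μ ^ m) :
    ∃ H x : ℤ, |x| ≤ S ∧ μ ^ n1 * exp (-((Kb + 6) * log n ^ 2)) ≤ g H x S n1 := by
  have hμ0 : 0 < μ := by linarith [h.one]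
  obtain ⟨l, hl⟩ : ∃ l, l = log (n : ℝ) := ⟨_, rfl⟩
  have hl0 : 0 ≤ l := by rw [hl]; exact log_natCast_nonneg n
  obtain ⟨E, hE⟩ : ∃ E, E = exp (K * l ^ 2) := ⟨_, rfl⟩
  obtain ⟨θ, hθ⟩ : ∃ θ, θ = thr K Kb l := ⟨_, rfl⟩
  have hE0 : 0 < E := by rw [hE]; exact exp_pos _
  have hθ0 : 0 < θ := by rw [hθ]; exact exp_pos _
  rw [← hl] at hsm ⊢
  rw [← hθ] at hsm
  have hnr : (2 : ℝ) ≤ n := by exact_mod_cast hn
  have hSr : (S : ℝ) ≤ n := by exact_mod_cast hSn
  have hn1r : (n1 : ℝ) ≤ n := by exact_mod_cast hn1n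
  have hln1 : log (n1 : ℝ) ≤ l := by
    rw [hl]
    exact log_le_log (by exact_mod_cast (by omega : 0 < n1)) hn1r
  have hln10 : 0 ≤ log (n1 : ℝ) := log_natCast_nonneg n1
  -- bridges
  have hbw : μ ^ n1 * exp (-(Kb * l ^ 2)) ≤ bw n1 := by
    refine le_trans ?_ (hb n1 hn1)
    have h1 := h.low n1 hn1
    have h2 : exp (-(Kb * l ^ 2)) ≤ exp (-(Kb * log n1 ^ 2)) := by
      apply exp_le_exp.2
      have : log (n1 : ℝ) ^ 2 ≤ l ^ 2 := pow_le_pow_left₀ hln10 hln1 2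
      nlinarith
    gcongr
  -- wide words
  have hwd : (wide n1 S : ℝ) ≤ (80 * ((n : ℝ) + 1) ^ 2 * (2 * n + 1) * E ^ 2 * θ) * μ ^ n1 := by
    have h1 := wide_le (n := n1) hS
    calc (wide n1 S : ℝ) ≤ ((∑ m ∈ range (n1 + 1), ∑ a ∈ range (n1 - m + 1),
          5 * (c a * ub m S * c (n1 - m - a)) : ℕ) : ℝ) := by exact_mod_cast h1
      _ = ∑ m ∈ range (n1 + 1), ∑ a ∈ range (n1 - m + 1),
          5 * ((c a : ℝ) * ub m S * c (n1 - m - a)) := by push_cast; rfl
      _ ≤ ∑ m ∈ range (n1 + 1), ∑ a ∈ range (n1 - m + 1),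
          (80 * (2 * n + 1) * E ^ 2 * θ) * μ ^ n1 := by
          refine sum_le_sum fun m hm => sum_le_sum fun a ha => ?_
          rw [mem_range] at hm ha
          have e1 := h.c_le4 (a := a) (n := n) (by omega)
          have e2 := h.c_le4 (a := n1 - m - a) (n := n) (by omega)
          rw [← hl, ← hE] at e1 e2
          have e3 : (ub m S : ℝ) ≤ (2 * n + 1) * θ * μ ^ m := by
            calc (ub m S : ℝ) ≤ ((∑ x ∈ Icc (-(S : ℤ)) S, ubx m x S : ℕ) : ℝ) := by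
                  exact_mod_cast ub_le m S
              _ = ∑ x ∈ Icc (-(S : ℤ)) S, (ubx m x S : ℝ) := by push_cast; rfl
              _ ≤ ∑ x ∈ Icc (-(S : ℤ)) S, θ * μ ^ m := by
                  refine sum_le_sum fun x hx => ?_
                  rw [mem_Icc] at hx
                  exact (hsm m (by omega) x (abs_le.2 hx)).le
              _ = (2 * S + 1) * θ * μ ^ m := by
                  rw [sum_const, Int.card_Icc, nsmul_eq_mul]
                  have : (((S : ℤ) + 1 - -(S : ℤ)).toNat) = 2 * S + 1 := by omega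
                  rw [this]
                  push_cast
                  ring
              _ ≤ _ := by
                  have : 0 < μ ^ m := pow_pos hμ0 m
                  gcongr
          have e4 : μ ^ a * μ ^ m * μ ^ (n1 - m - a) = μ ^ n1 := by
            rw [← pow_add, ← pow_add]
            congr 1
            omega
          calc 5 * ((c a : ℝ) * ub m S * c (n1 - m - a))
              ≤ 5 * ((4 * μ ^ a * E) * ((2 * n + 1) * θ * μ ^ m) *
                (4 * μ ^ (n1 - m - a) * E)) := by gcongr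
            _ = (80 * (2 * n + 1) * E ^ 2 * θ) * (μ ^ a * μ ^ m * μ ^ (n1 - m - a)) := by ring
            _ = _ := by rw [e4]
      _ ≤ ∑ m ∈ range (n1 + 1), ((n : ℝ) + 1) * ((80 * (2 * n + 1) * E ^ 2 * θ) * μ ^ n1) := by
          refine sum_le_sum fun m _ => ?_
          rw [sum_const, card_range, nsmul_eq_mul]
          apply mul_le_mul_of_nonneg_right _ (by positivity)
          have : ((n1 - m + 1 : ℕ) : ℝ) ≤ ((n + 1 : ℕ) : ℝ) := by
            exact_mod_cast (by omega : n1 - m + 1 ≤ n + 1)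
          push_cast at this
          exact_mod_cast this
      _ = ((n1 + 1 : ℕ) : ℝ) * (((n : ℝ) + 1) * ((80 * (2 * n + 1) * E ^ 2 * θ) * μ ^ n1)) := by
          rw [sum_const, card_range, nsmul_eq_mul]
      _ ≤ ((n : ℝ) + 1) * (((n : ℝ) + 1) * ((80 * (2 * n + 1) * E ^ 2 * θ) * μ ^ n1)) := by
          apply mul_le_mul_of_nonneg_right _ (by positivity)
          push_cast
          linarith
      _ = _ := by ring
  have hsmall : 160 * ((n : ℝ) + 1) ^ 2 * (2 * n + 1) * E ^ 2 * θ ≤ exp (-(Kb * l ^ 2)) := by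
    have a1 : (160 : ℝ) ≤ (n : ℝ) ^ 8 := by
      calc (160 : ℝ) ≤ 2 ^ 8 := by norm_num
        _ ≤ _ := pow_le_pow_left₀ (by norm_num) hnr 8
    have a2 : (n : ℝ) + 1 ≤ (n : ℝ) ^ 2 := by nlinarith
    have a3 : 2 * (n : ℝ) + 1 ≤ (n : ℝ) ^ 3 := by nlinarith [sq_nonneg ((n : ℝ) - 2)]
    have a4 := npow_le hn 14
    have b1 : 160 * ((n : ℝ) + 1) ^ 2 * (2 * n + 1) ≤ (n : ℝ) ^ 15 := by
      calc 160 * ((n : ℝ) + 1) ^ 2 * (2 * n + 1) ≤
          (n : ℝ) ^ 8 * ((n : ℝ) ^ 2) ^ 2 * (n : ℝ) ^ 3 := by gcongr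
        _ = _ := by ring
    have hn0 : (0 : ℝ) < n := by linarith
    have b2 : (n : ℝ) ^ 15 ≤ exp (22 * l ^ 2) := by
      have hlog2 : 0.6931471803 < log 2 := log_two_gt_d9
      have hl2 : log 2 ≤ l := by rw [hl]; exact log_le_log (by norm_num) hnr
      calc (n : ℝ) ^ 15 = exp ((15 : ℕ) * l) := by rw [exp_nat_mul, hl, exp_log hn0]
        _ ≤ _ := by
            apply exp_le_exp.2
            push_cast
            nlinarith
    calc 160 * ((n : ℝ) + 1) ^ 2 * (2 * n + 1) * E ^ 2 * θ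
        ≤ exp (22 * l ^ 2) * E ^ 2 * θ := by
          have := b1.trans b2
          gcongr
      _ = exp (22 * l ^ 2 + 2 * (K * l ^ 2) +
          -((4 * Pool.Agent.TH303.SX2.K2 K + 2 * K + Kb + 22) * l ^ 2)) := by
          rw [hE, hθ, ← exp_nat_mul, exp_add, exp_add]
          rfl
      _ ≤ _ := by
          apply exp_le_exp.2
          have := Pool.Agent.TH303.SX2.K2_nonneg h.Kn
          nlinarith [mul_nonneg this (sq_nonneg l)]
  by_contra hcon
  push Not at hcon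
  have hcon' : ∀ H x : ℤ, |x| ≤ S → (g H x S n1 : ℝ) ≤ μ ^ n1 * exp (-((Kb + 6) * l ^ 2)) :=
    fun H x hx => (hcon H x hx).le
  have hsum : (bw n1 : ℝ) ≤ wide n1 S + 2 * n ^ 2 * (μ ^ n1 * exp (-((Kb + 6) * l ^ 2))) := by
    calc (bw n1 : ℝ) ≤ ((wide n1 S +
          ∑ p ∈ Ico (0 : ℤ) S ×ˢ Ioo (-(S : ℤ)) S, g p.1 p.2 S n1 : ℕ) : ℝ) := by
          exact_mod_cast bw_le n1 S
      _ = wide n1 S + ∑ p ∈ Ico (0 : ℤ) S ×ˢ Ioo (-(S : ℤ)) S, (g p.1 p.2 S n1 : ℝ) := by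
          push_cast; rfl
      _ ≤ wide n1 S + ∑ p ∈ Ico (0 : ℤ) S ×ˢ Ioo (-(S : ℤ)) S,
          (μ ^ n1 * exp (-((Kb + 6) * l ^ 2))) := by
          gcongr with p hp
          apply hcon'
          rw [mem_product, mem_Ioo] at hp
          rw [abs_le]
          omega
      _ ≤ _ := by
          rw [sum_const, nsmul_eq_mul, card_product, Int.card_Ico, Int.card_Ioo]
          have e1 : ((S : ℤ) - 0).toNat = S := by omega
          have e2 : ((S : ℤ) - -(S : ℤ) - 1).toNat = 2 * S - 1 := by omega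
          rw [e1, e2]
          have e3 : ((S * (2 * S - 1) : ℕ) : ℝ) ≤ 2 * n ^ 2 := by
            have : S * (2 * S - 1) ≤ 2 * n ^ 2 := by
              calc S * (2 * S - 1) ≤ n * (2 * n) := by gcongr; omega
                _ = _ := by ring
            exact_mod_cast this
          gcongr
  have h4 : 4 * (n : ℝ) ^ 2 * exp (-((Kb + 6) * l ^ 2)) < exp (-(Kb * l ^ 2)) := by
    have hn0 : (0 : ℝ) < n := by linarith
    have hlog2 : 0.6931471803 < log 2 := log_two_gt_d9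
    have hl2 : log 2 ≤ l := by rw [hl]; exact log_le_log (by norm_num) hnr
    have b2 : (n : ℝ) ^ 4 < exp (6 * l ^ 2) := by
      calc (n : ℝ) ^ 4 = exp ((4 : ℕ) * l) := by rw [exp_nat_mul, hl, exp_log hn0]
        _ < _ := by
            apply exp_lt_exp.2
            push_cast
            nlinarith
    have b3 : 4 * (n : ℝ) ^ 2 ≤ (n : ℝ) ^ 4 := by nlinarith [sq_nonneg ((n : ℝ) ^ 2 - 4)]
    calc 4 * (n : ℝ) ^ 2 * exp (-((Kb + 6) * l ^ 2))
        < exp (6 * l ^ 2) * exp (-((Kb + 6) * l ^ 2)) := by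
          have := b3.trans_lt b2
          gcongr
      _ = _ := by rw [← exp_add]; congr 1; ring
  have hμn : 0 < μ ^ n1 := pow_pos hμ0 n1
  nlinarith [mul_le_mul_of_nonneg_right hsmall hμn.le, mul_lt_mul_of_pos_right h4 hμn]

end Pool.Agent.N941.SP
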