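import Pool.Agent.N941.SP.Sup

/-!
Interpolation and normalization.
-/

set_option autoImplicit false

namespace Pool.Agent.N941.SP

open Pool.Agent.H122R3.SX (Adj)

/-- clamp to `[0, 1]` -/
noncomputable def cl (x : ℝ) : ℝ := max 0 (min 1 x)

theorem cl_one {x : ℝ} (h : 1 ≤ x) : cl x = 1 := by
  unfold cl
  rw [min_eq_left h, max_eq_right zero_le_one]

theorem cl_zero {x : ℝ} (h : x ≤ 0) : cl x = 0 := by
  unfold cl
  rw [min_eq_right (by linarith), max_eq_left h]

theorem cl_mid {x : ℝ} (h0 : 0 ≤ x) (h1 : x ≤ 1) : cl x = x := by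
  unfold cl
  rw [min_eq_right h1, max_eq_right h0]

/-- the value of the interpolation -/
theorem interp (f : ℕ → ℂ) {x : ℝ} {k : ℕ} (h0 : (k : ℝ) ≤ x) (h1 : x ≤ k + 1) {n : ℕ}
    (hk : k < n) : ∑ j ∈ Finset.range n, ((cl (x - j) : ℝ) : ℂ) * (f (j + 1) - f j) =
      f k - f 0 + ((x - k : ℝ) : ℂ) * (f (k + 1) - f k) := by
  induction n, hk using Nat.le_induction with
  | base =>
    rw [Finset.sum_range_succ, cl_mid (by linarith) (by linarith)]
    congr 1
    rw [← Finset.sum_range_sub f k]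
    refine Finset.sum_congr rfl fun j hj => ?_
    rw [Finset.mem_range] at hj
    have h2 : (j : ℝ) + 1 ≤ k := by exact_mod_cast hj
    rw [cl_one (by linarith)]
    push_cast
    ring
  | succ n hn ih =>
    rw [Finset.sum_range_succ, ih]
    have h2 : (k : ℝ) + 1 ≤ n := by exact_mod_cast hn
    rw [cl_zero (by linarith)]
    push_cast
    ring

/-- the block of a time -/
theorem exists_block {n : ℕ} (hn : 1 ≤ n) (t : unitInterval) :
    ∃ k : ℕ, k < n ∧ (k : ℝ) ≤ n * t ∧ (n : ℝ) * t ≤ k + 1 := by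
  have hnr : (1 : ℝ) ≤ n := by exact_mod_cast hn
  have ht0 := t.2.1
  have ht1 := t.2.2
  have h0 : 0 ≤ (n : ℝ) * t := by positivity
  rcases Nat.lt_or_ge ⌊(n : ℝ) * t⌋₊ n with h | h
  · exact ⟨⌊(n : ℝ) * t⌋₊, h, Nat.floor_le h0, (Nat.lt_floor_add_one _).le⟩
  · refine ⟨n - 1, by omega, ?_, ?_⟩
    · rw [Nat.cast_sub hn]
      have h1 : (n : ℝ) ≤ ⌊(n : ℝ) * t⌋₊ := by exact_mod_cast h
      have h2 := Nat.floor_le h0
      push_cast
      linarith
    · rw [Nat.cast_sub hn]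
      push_cast
      nlinarith

/-- normalization by the diameter -/
theorem normalize {f g : C(unitInterval, ℂ)} {S η : ℝ} (hS : 0 < S) (hη0 : 0 ≤ η) (hη : η ≤ 1 / 4)
    (hg0 : g 0 = 0) (hgd : Metric.diam (Set.range g) = 1)
    (hfg : ∀ t, ‖f t - (S : ℂ) * g t‖ ≤ η * S) :
    ∀ t, ‖((Metric.diam (Set.range f))⁻¹ • f) t - g t‖ ≤ 6 * η := by
  obtain ⟨D, hD⟩ : ∃ D, D = Metric.diam (Set.range f) := ⟨_, rfl⟩
  have hfb : Bornology.IsBounded (Set.range f) := (isCompact_range f.continuous).isBounded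
  have hgb : Bornology.IsBounded (Set.range g) := (isCompact_range g.continuous).isBounded
  have hgdist : ∀ s t, ‖g s - g t‖ ≤ 1 := by
    intro s t
    rw [← hgd, ← dist_eq_norm]
    exact Metric.dist_le_diam_of_mem hgb ⟨s, rfl⟩ ⟨t, rfl⟩
  have hfdist : ∀ s t, ‖f s - f t‖ ≤ D := by
    intro s t
    rw [hD, ← dist_eq_norm]
    exact Metric.dist_le_diam_of_mem hfb ⟨s, rfl⟩ ⟨t, rfl⟩
  have hup : D ≤ S + 2 * η * S := by
    rw [hD]
    apply Metric.diam_le_of_forall_dist_le (by positivity)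
    rintro _ ⟨s, rfl⟩ _ ⟨t, rfl⟩
    rw [dist_eq_norm]
    have e : f s - f t = (f s - (S : ℂ) * g s) - (f t - (S : ℂ) * g t) + (S : ℂ) * (g s - g t) := by
      ring
    rw [e]
    have h1 : ‖(S : ℂ) * (g s - g t)‖ ≤ S * 1 := by
      rw [norm_mul, Complex.norm_real, Real.norm_eq_abs, abs_of_pos hS]
      exact mul_le_mul_of_nonneg_left (hgdist s t) hS.le
    have h2 := norm_sub_le (f s - (S : ℂ) * g s) (f t - (S : ℂ) * g t)
    have h3 := norm_add_le ((f s - (S : ℂ) * g s) - (f t - (S : ℂ) * g t)) ((S : ℂ) * (g s - g t))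
    have h4 := hfg s
    have h5 := hfg t
    linarith
  have hlow : S ≤ D + 2 * η * S := by
    have h1 : (1 : ℝ) ≤ (D + 2 * η * S) / S := by
      rw [← hgd]
      have hD0 : 0 ≤ D := by rw [hD]; exact Metric.diam_nonneg
      apply Metric.diam_le_of_forall_dist_le (by positivity)
      rintro _ ⟨s, rfl⟩ _ ⟨t, rfl⟩
      rw [dist_eq_norm, le_div_iff₀ hS]
      have e : (S : ℂ) * (g s - g t) =
          (f s - f t) - ((f s - (S : ℂ) * g s) - (f t - (S : ℂ) * g t)) := by ring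
      have h1 : ‖(S : ℂ) * (g s - g t)‖ = ‖g s - g t‖ * S := by
        rw [norm_mul, Complex.norm_real, Real.norm_eq_abs, abs_of_pos hS, mul_comm]
      rw [← h1, e]
      have h2 := norm_sub_le (f s - (S : ℂ) * g s) (f t - (S : ℂ) * g t)
      have h3 := norm_sub_le (f s - f t) ((f s - (S : ℂ) * g s) - (f t - (S : ℂ) * g t))
      have h4 := hfg s
      have h5 := hfg t
      have h6 := hfdist s t
      linarith
    rw [le_div_iff₀ hS] at h1
    linarith
  have hDS : S / 2 ≤ D := by nlinarith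
  have hD0 : 0 < D := by linarith
  intro t
  rw [← hD, ContinuousMap.smul_apply, Complex.real_smul]
  have hDc : (D : ℂ) ≠ 0 := by exact_mod_cast hD0.ne'
  have e : ((D⁻¹ : ℝ) : ℂ) * f t - g t =
      ((D⁻¹ : ℝ) : ℂ) * ((f t - (S : ℂ) * g t) + ((S - D : ℝ) : ℂ) * g t) := by
    push_cast
    field_simp
    ring
  rw [e, norm_mul, Complex.norm_real, Real.norm_eq_abs, abs_of_pos (by positivity)]
  have h1 : ‖g t‖ ≤ 1 := by
    have := hgdist t 0
    rwa [hg0, sub_zero] at this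
  have h2 : |S - D| ≤ 2 * η * S := by
    rw [abs_le]
    constructor <;> linarith
  have h3 : ‖(f t - (S : ℂ) * g t) + ((S - D : ℝ) : ℂ) * g t‖ ≤ 3 * η * S := by
    refine (norm_add_le _ _).trans ?_
    rw [norm_mul, Complex.norm_real, Real.norm_eq_abs]
    have h4 := hfg t
    have h5 : |S - D| * ‖g t‖ ≤ 2 * η * S * 1 := by gcongr
    linarith
  have h4 : D⁻¹ ≤ 2 / S := by
    rw [inv_le_comm₀ hD0 (by positivity), inv_div]
    exact hDS
  calc D⁻¹ * ‖(f t - (S : ℂ) * g t) + ((S - D : ℝ) : ℂ) * g t‖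
      ≤ (2 / S) * (3 * η * S) := by gcongr
    _ = 6 * η := by field_simp; ring

/-- the interpolation of a self-avoiding path is injective -/
theorem interp_inj {n : ℕ} (hn : 1 ≤ n) {g : ℕ → ℤ × ℤ} (hadj : ∀ i < n, Adj (g i) (g (i + 1)))
    (hinj : ∀ i ≤ n, ∀ j ≤ n, g i = g j → i = j) {k k' : ℕ} (hk : k < n) (hk' : k' < n) {x x' : ℝ}
    (h0 : (k : ℝ) ≤ x) (h1 : x ≤ k + 1) (h0' : (k' : ℝ) ≤ x') (h1' : x' ≤ k' + 1)
    (h : pt (g k) + ((x - k : ℝ) : ℂ) * (pt (g (k + 1)) - pt (g k)) =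
      pt (g k') + ((x' - k' : ℝ) : ℂ) * (pt (g (k' + 1)) - pt (g k'))) : x = x' := by
  have hlp := ext_lp hn hadj hinj
  have hun := hlp.un k hk.le
  have hun' := hlp.un k' hk'.le
  rw [ext_of_le hk.le, ext_of_le (by omega : k + 1 ≤ n)] at hun
  rw [ext_of_le hk'.le, ext_of_le (by omega : k' + 1 ≤ n)] at hun'
  obtain ⟨e, he⟩ : ∃ e, e = g (k + 1) - g k := ⟨_, rfl⟩
  obtain ⟨e', he'⟩ : ∃ e', e' = g (k' + 1) - g k' := ⟨_, rfl⟩
  rw [← he] at hun
  rw [← he'] at hun'
  rw [← pt_sub, ← pt_sub, ← he, ← he'] at h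
  have r1 := congrArg Complex.re h
  have r2 := congrArg Complex.im h
  rw [Complex.add_re, Complex.add_re, Complex.re_ofReal_mul, Complex.re_ofReal_mul, pt_re, pt_re,
    pt_re, pt_re] at r1
  rw [Complex.add_im, Complex.add_im, Complex.im_ofReal_mul, Complex.im_ofReal_mul, pt_im, pt_im,
    pt_im, pt_im] at r2
  obtain ⟨θ, hθ⟩ : ∃ θ, θ = x - k := ⟨_, rfl⟩
  obtain ⟨θ', hθ'⟩ : ∃ θ', θ' = x' - k' := ⟨_, rfl⟩
  rw [← hθ, ← hθ'] at r1 r2
  have hθ0 : 0 ≤ θ := by linarith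
  have hθ1 : θ ≤ 1 := by linarith
  have hθ0' : 0 ≤ θ' := by linarith
  have hθ1' : θ' ≤ 1 := by linarith
  by_cases hkk : k = k'
  · subst hkk
    rw [← he] at he'
    subst he'
    have : θ = θ' := by
      rcases hun.cases with h2 | h2 | h2 | h2 <;> rw [h2] at r1 r2 <;> push_cast at r1 r2 <;> linarith
    linarith
  · -- different edges
    have hmid : g k + g (k + 1) ≠ g k' + g (k' + 1) := by
      intro hc
      apply hkk
      apply hlp.mid k hk.le k' hk'.le
      rw [ext_of_le hk.le, ext_of_le (by omega : k + 1 ≤ n), ext_of_le hk'.le,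
        ext_of_le (by omega : k' + 1 ≤ n)]
      exact hc
    have hgk : g (k + 1) = g k + e := by rw [he]; abel
    have hgk' : g (k' + 1) = g k' + e' := by rw [he']; abel
    rw [hgk, hgk'] at hmid
    obtain ⟨⟨a1, a2⟩, hga⟩ : ∃ z, g k = z := ⟨_, rfl⟩
    obtain ⟨⟨b1, b2⟩, hgb⟩ : ∃ z, g k' = z := ⟨_, rfl⟩
    rw [hga, hgb] at r1 r2 hmid
    -- the two points are vertices
    have key : (θ = 0 ∨ θ = 1) ∧ (θ' = 0 ∨ θ' = 1) := by
      obtain ⟨D1, hD1⟩ : ∃ D1, D1 = 2 * a1 + e.1 - (2 * b1 + e'.1) := ⟨_, rfl⟩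
      obtain ⟨D2, hD2⟩ : ∃ D2, D2 = 2 * a2 + e.2 - (2 * b2 + e'.2) := ⟨_, rfl⟩
      have p1 := un_parity hun
      have p2 := un_parity hun'
      have hD : 2 ≤ |D1| + |D2| := by
        by_contra hc
        have m5 : D1 = 0 ∧ D2 = 0 := by
          rcases abs_cases D1 with a1 | a1 <;> rcases abs_cases D2 with a2 | a2 <;> omega
        apply hmid
        ext
        · simp only [Prod.fst_add]; omega
        · simp only [Prod.snd_add]; omega
      have hDr : (2 : ℝ) ≤ |(D1 : ℝ)| + |(D2 : ℝ)| := by exact_mod_cast hD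
      have k1 : (D1 : ℝ) = (2 * θ' - 1) * e'.1 - (2 * θ - 1) * e.1 := by
        rw [hD1]; push_cast; simp only at r1; linarith
      have k2 : (D2 : ℝ) = (2 * θ' - 1) * e'.2 - (2 * θ - 1) * e.2 := by
        rw [hD2]; push_cast; simp only at r2; linarith
      have hun1 : |(e.1 : ℝ)| + |(e.2 : ℝ)| = 1 := by exact_mod_cast hun
      have hun2 : |(e'.1 : ℝ)| + |(e'.2 : ℝ)| = 1 := by exact_mod_cast hun'
      have n1 : |(D1 : ℝ)| ≤ |2 * θ' - 1| * |(e'.1 : ℝ)| + |2 * θ - 1| * |(e.1 : ℝ)| := by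
        rw [k1, ← abs_mul, ← abs_mul]
        exact abs_sub _ _
      have n2 : |(D2 : ℝ)| ≤ |2 * θ' - 1| * |(e'.2 : ℝ)| + |2 * θ - 1| * |(e.2 : ℝ)| := by
        rw [k2, ← abs_mul, ← abs_mul]
        exact abs_sub _ _
      have n3 : 2 ≤ |2 * θ' - 1| + |2 * θ - 1| := by
        calc (2 : ℝ) ≤ |(D1 : ℝ)| + |(D2 : ℝ)| := hDr
          _ ≤ |2 * θ' - 1| * (|(e'.1 : ℝ)| + |(e'.2 : ℝ)|) +
              |2 * θ - 1| * (|(e.1 : ℝ)| + |(e.2 : ℝ)|) := by linarith
          _ = _ := by rw [hun1, hun2]; ring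
      rcases abs_cases (2 * θ' - 1) with h2 | h2 <;> rcases abs_cases (2 * θ - 1) with h3 | h3
      · exact ⟨Or.inr (by linarith), Or.inr (by linarith)⟩
      · exact ⟨Or.inl (by linarith), Or.inr (by linarith)⟩
      · exact ⟨Or.inr (by linarith), Or.inl (by linarith)⟩
      · exact ⟨Or.inl (by linarith), Or.inl (by linarith)⟩
    simp only at r1 r2
    obtain ⟨h2 | h2, h3 | h3⟩ := key
    · have h4 : g k = g k' := by
        rw [hga, hgb]
        rw [h2, h3] at r1 r2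
        have q1 : (a1 : ℝ) = b1 := by linarith
        have q2 : (a2 : ℝ) = b2 := by linarith
        exact Prod.ext (by exact_mod_cast q1) (by exact_mod_cast q2)
      exact absurd (hinj k hk.le k' hk'.le h4) hkk
    · have h4 : g k = g (k' + 1) := by
        rw [hgk', hga, hgb]
        rw [h2, h3] at r1 r2
        have q1 : (a1 : ℝ) = b1 + e'.1 := by linarith
        have q2 : (a2 : ℝ) = b2 + e'.2 := by linarith
        exact Prod.ext (by exact_mod_cast q1) (by exact_mod_cast q2)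
      have h5 := hinj k hk.le (k' + 1) (by omega) h4
      have h6 : (k : ℝ) = k' + 1 := by exact_mod_cast h5
      linarith
    · have h4 : g (k + 1) = g k' := by
        rw [hgk, hga, hgb]
        rw [h2, h3] at r1 r2
        have q1 : (a1 : ℝ) + e.1 = b1 := by linarith
        have q2 : (a2 : ℝ) + e.2 = b2 := by linarith
        exact Prod.ext (by exact_mod_cast q1) (by exact_mod_cast q2)
      have h5 := hinj (k + 1) (by omega) k' hk'.le h4
      have h6 : (k : ℝ) + 1 = k' := by exact_mod_cast h5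
      linarith
    · have h4 : g (k + 1) = g (k' + 1) := by
        rw [hgk, hgk', hga, hgb]
        rw [h2, h3] at r1 r2
        have q1 : (a1 : ℝ) + e.1 = b1 + e'.1 := by linarith
        have q2 : (a2 : ℝ) + e.2 = b2 + e'.2 := by linarith
        exact Prod.ext (by exact_mod_cast q1) (by exact_mod_cast q2)
      have h5 := hinj (k + 1) (by omega) (k' + 1) (by omega) h4
      omega

end Pool.Agent.N941.SP
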