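import Pool.Agent.H122R3.SX.Link

/-!
Substitution: every step of a self-avoiding path of the square lattice is replaced by a
self-avoiding path in the open diamond around it.
-/

set_option autoImplicit false

namespace Pool.Agent.N941.SP

open Pool.Agent.H122R3.SX (Adj)

/-- rotation taking `(0, 1)` to `e` -/
def rot (e z : ℤ × ℤ) : ℤ × ℤ := (z.1 * e.2 + z.2 * e.1, z.2 * e.2 - z.1 * e.1)

/-- unit vectors -/
def Un (e : ℤ × ℤ) : Prop := |e.1| + |e.2| = 1

/-- scaling -/
def sc (Y : ℤ) (u : ℤ × ℤ) : ℤ × ℤ := (Y * u.1, Y * u.2)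

theorem Un.cases {e : ℤ × ℤ} (h : Un e) : e = (1, 0) ∨ e = (-1, 0) ∨ e = (0, 1) ∨ e = (0, -1) := by
  obtain ⟨a, b⟩ := e
  unfold Un at h
  simp only [Prod.mk.injEq] at *
  rcases abs_cases a with h1 | h1 <;> rcases abs_cases b with h2 | h2 <;> omega

theorem adj_iff_un (p q : ℤ × ℤ) : Adj p q ↔ Un (q - p) := by
  unfold Adj Un
  simp only [Prod.fst_sub, Prod.snd_sub]
  rw [abs_sub_comm p.1, abs_sub_comm p.2]

theorem adj_symm {p q : ℤ × ℤ} (h : Adj p q) : Adj q p := by
  unfold Adj at *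
  rw [abs_sub_comm q.1, abs_sub_comm q.2]
  exact h

theorem rot_sub (e z z' : ℤ × ℤ) : rot e (z - z') = rot e z - rot e z' := by
  unfold rot
  ext
  · simp only [Prod.fst_sub, Prod.snd_sub]; ring
  · simp only [Prod.fst_sub, Prod.snd_sub]; ring

theorem rot_zero (e : ℤ × ℤ) : rot e 0 = 0 := by
  unfold rot
  simp

theorem rot_top (e : ℤ × ℤ) (Y : ℤ) : rot e (0, Y) = sc Y e := by
  unfold rot sc
  simp

theorem rot_norm {e : ℤ × ℤ} (h : Un e) (z : ℤ × ℤ) :
    |(rot e z).1| + |(rot e z).2| = |z.1| + |z.2| := by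
  unfold rot
  rcases h.cases with rfl | rfl | rfl | rfl
  · simp only [mul_zero, mul_one, zero_add, zero_sub, abs_neg]; ring
  · simp only [mul_zero, mul_neg, mul_one, zero_add, zero_sub, abs_neg, neg_neg]; ring
  · simp only [mul_zero, mul_one, add_zero, sub_zero]
  · simp only [mul_zero, mul_neg, mul_one, add_zero, sub_zero, abs_neg]

theorem rot_inj {e : ℤ × ℤ} (h : Un e) {z z' : ℤ × ℤ} (hz : rot e z = rot e z') : z = z' := by
  have h1 := rot_norm h (z - z')
  rw [rot_sub, hz, sub_self] at h1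
  simp only [Prod.fst_zero, Prod.snd_zero, abs_zero, add_zero, Prod.fst_sub, Prod.snd_sub] at h1
  have h2 := abs_nonneg (z.1 - z'.1)
  have h3 := abs_nonneg (z.2 - z'.2)
  have h4 : |z.1 - z'.1| = 0 := by omega
  have h5 : |z.2 - z'.2| = 0 := by omega
  rw [abs_eq_zero] at h4 h5
  exact Prod.ext (by omega) (by omega)

theorem adj_rot {e : ℤ × ℤ} (h : Un e) (a : ℤ × ℤ) {z z' : ℤ × ℤ} (hz : Adj z z') :
    Adj (a + rot e z) (a + rot e z') := by
  rw [adj_iff_un] at *
  rw [add_sub_add_left_eq_sub, ← rot_sub]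
  unfold Un at hz ⊢
  rw [rot_norm h]
  exact hz

/-- the open diamond -/
def dia (Y : ℤ) (z : ℤ × ℤ) : Prop := 2 * |z.1| + |2 * z.2 - Y| < Y

/-- norm of the deviation from the midpoint -/
theorem mid_norm {Y : ℤ} {e z : ℤ × ℤ} (h : Un e) (hz : dia Y z) :
    |2 * (rot e z).1 - Y * e.1| + |2 * (rot e z).2 - Y * e.2| < Y := by
  unfold dia at hz
  unfold rot
  rcases h.cases with rfl | rfl | rfl | rfl
  · simp only [mul_zero, mul_one, zero_add, zero_sub, sub_zero]
    rw [show 2 * -z.1 = -(2 * z.1) by ring, abs_neg, abs_mul 2 z.1, abs_two]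
    omega
  · simp only [mul_zero, mul_neg, mul_one, zero_add, zero_sub, neg_neg, sub_zero]
    rw [show -(2 * z.2) - -Y = -(2 * z.2 - Y) by ring, abs_neg, abs_mul 2 z.1, abs_two]
    omega
  · simp only [mul_zero, mul_one, add_zero, sub_zero]
    rw [abs_mul 2 z.1, abs_two]
    omega
  · simp only [mul_zero, mul_neg, mul_one, add_zero, sub_zero]
    rw [show -(2 * z.2) - -Y = -(2 * z.2 - Y) by ring, abs_neg, abs_neg, abs_mul 2 z.1, abs_two]
    omega

theorem un_parity {e : ℤ × ℤ} (h : Un e) : (e.1 + e.2) % 2 = 1 := by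
  rcases h.cases with rfl | rfl | rfl | rfl <;> norm_num

/-- interior points of different edges -/
theorem int_ne {Y : ℤ} (hY : 1 ≤ Y) {u u' e e' z z' : ℤ × ℤ} (he : Un e) (he' : Un e')
    (hne : u + (u + e) ≠ u' + (u' + e')) (hz : dia Y z) (hz' : dia Y z') :
    sc Y u + rot e z ≠ sc Y u' + rot e' z' := by
  intro h
  have h1 := mid_norm he hz
  have h2 := mid_norm he' hz'
  have g1 := congrArg Prod.fst h
  have g2 := congrArg Prod.snd h
  simp only [Prod.fst_add, Prod.snd_add, sc] at g1 g2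
  have p1 := un_parity he
  have p2 := un_parity he'
  obtain ⟨D1, hD1⟩ : ∃ D1, D1 = 2 * u.1 + e.1 - (2 * u'.1 + e'.1) := ⟨_, rfl⟩
  obtain ⟨D2, hD2⟩ : ∃ D2, D2 = 2 * u.2 + e.2 - (2 * u'.2 + e'.2) := ⟨_, rfl⟩
  have k1 : Y * D1 = (2 * (rot e' z').1 - Y * e'.1) - (2 * (rot e z).1 - Y * e.1) := by
    rw [hD1]; linear_combination 2 * g1
  have k2 : Y * D2 = (2 * (rot e' z').2 - Y * e'.2) - (2 * (rot e z).2 - Y * e.2) := by
    rw [hD2]; linear_combination 2 * g2
  have m1 : Y * |D1| = |(2 * (rot e' z').1 - Y * e'.1) - (2 * (rot e z).1 - Y * e.1)| := by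
    rw [← k1, abs_mul, abs_of_nonneg (by omega : 0 ≤ Y)]
  have m2 : Y * |D2| = |(2 * (rot e' z').2 - Y * e'.2) - (2 * (rot e z).2 - Y * e.2)| := by
    rw [← k2, abs_mul, abs_of_nonneg (by omega : 0 ≤ Y)]
  have n1 := abs_sub (2 * (rot e' z').1 - Y * e'.1) (2 * (rot e z).1 - Y * e.1)
  have n2 := abs_sub (2 * (rot e' z').2 - Y * e'.2) (2 * (rot e z).2 - Y * e.2)
  have m3 : Y * (|D1| + |D2|) < 2 * Y := by rw [mul_add]; omega
  have m4 : |D1| + |D2| < 2 := by nlinarith
  apply hne
  have m5 : D1 = 0 ∧ D2 = 0 := by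
    rcases abs_cases D1 with a1 | a1 <;> rcases abs_cases D2 with a2 | a2 <;> omega
  ext
  · simp only [Prod.fst_add]; omega
  · simp only [Prod.snd_add]; omega

/-- vertices against interior points -/
theorem ver_ne {Y : ℤ} (hY : 1 ≤ Y) {v u e z : ℤ × ℤ} (he : Un e) (hz : dia Y z) :
    sc Y v ≠ sc Y u + rot e z := by
  intro h
  have h1 := mid_norm he hz
  have g1 := congrArg Prod.fst h
  have g2 := congrArg Prod.snd h
  simp only [Prod.fst_add, Prod.snd_add, sc] at g1 g2
  have p1 := un_parity he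
  obtain ⟨D1, hD1⟩ : ∃ D1, D1 = 2 * v.1 - (2 * u.1 + e.1) := ⟨_, rfl⟩
  obtain ⟨D2, hD2⟩ : ∃ D2, D2 = 2 * v.2 - (2 * u.2 + e.2) := ⟨_, rfl⟩
  have k1 : Y * D1 = 2 * (rot e z).1 - Y * e.1 := by
    rw [hD1]; linear_combination 2 * g1
  have k2 : Y * D2 = 2 * (rot e z).2 - Y * e.2 := by
    rw [hD2]; linear_combination 2 * g2
  have m1 : Y * |D1| = |2 * (rot e z).1 - Y * e.1| := by
    rw [← k1, abs_mul, abs_of_nonneg (by omega : 0 ≤ Y)]
  have m2 : Y * |D2| = |2 * (rot e z).2 - Y * e.2| := by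
    rw [← k2, abs_mul, abs_of_nonneg (by omega : 0 ≤ Y)]
  have m3 : Y * (|D1| + |D2|) < Y * 1 := by rw [mul_add]; omega
  have m4 : |D1| + |D2| < 1 := by nlinarith
  have m5 : D1 = 0 ∧ D2 = 0 := by
    rcases abs_cases D1 with a1 | a1 <;> rcases abs_cases D2 with a2 | a2 <;> omega
  omega

theorem sc_inj {Y : ℤ} (hY : 1 ≤ Y) {u v : ℤ × ℤ} (h : sc Y u = sc Y v) : u = v := by
  unfold sc at h
  rw [Prod.mk.injEq] at h
  have hY0 : Y ≠ 0 := by omega
  exact Prod.ext (mul_left_cancel₀ hY0 h.1) (mul_left_cancel₀ hY0 h.2)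

/-- two edges with the same midpoint -/
theorem edge_eq {a b e e' : ℤ × ℤ} (he : Un e) (he' : Un e') (h : a + (a + e) = b + (b + e')) :
    a = b ∨ (b = a + e ∧ a = b + e') := by
  obtain ⟨a1, a2⟩ := a
  obtain ⟨b1, b2⟩ := b
  rcases he.cases with rfl | rfl | rfl | rfl <;> rcases he'.cases with rfl | rfl | rfl | rfl <;>
    simp only [Prod.mk_add_mk, Prod.mk.injEq] at h ⊢ <;> omega

/-! ### the block of a time -/

/-- the block containing the time `k` -/
def idx (τ : ℕ → ℕ) (k : ℕ) : ℕ := Nat.findGreatest (fun i => τ i ≤ k) k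

theorem idx_spec {τ : ℕ → ℕ} (hτ : StrictMono τ) (h0 : τ 0 = 0) (k : ℕ) :
    τ (idx τ k) ≤ k ∧ k < τ (idx τ k + 1) := by
  constructor
  · exact Nat.findGreatest_spec (P := fun i => τ i ≤ k) (Nat.zero_le k) (by simp [h0])
  · by_contra hc
    rw [not_lt] at hc
    have h1 := hτ.le_apply (x := idx τ k + 1)
    exact Nat.findGreatest_is_greatest (P := fun i => τ i ≤ k) (Nat.lt_succ_self _)
      (h1.trans hc) hc

theorem idx_eq {τ : ℕ → ℕ} (hτ : StrictMono τ) (h0 : τ 0 = 0) {k i : ℕ} (h1 : τ i ≤ k)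
    (h2 : k < τ (i + 1)) : idx τ k = i := by
  obtain ⟨h3, h4⟩ := idx_spec hτ h0 k
  have h5 : i < idx τ k + 1 := hτ.lt_iff_lt.1 (by omega)
  have h6 : idx τ k < i + 1 := hτ.lt_iff_lt.1 (by omega)
  omega

theorem idx_tau {τ : ℕ → ℕ} (hτ : StrictMono τ) (h0 : τ 0 = 0) (i : ℕ) : idx τ (τ i) = i :=
  idx_eq hτ h0 le_rfl (hτ (Nat.lt_succ_self i))

theorem idx_le {τ : ℕ → ℕ} (hτ : StrictMono τ) (h0 : τ 0 = 0) {k L : ℕ} (h : k < τ (L + 1)) :
    idx τ k ≤ L := by
  obtain ⟨h3, h4⟩ := idx_spec hτ h0 k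
  have h6 : idx τ k < L + 1 := hτ.lt_iff_lt.1 (by omega)
  omega

/-! ### substitution -/

/-- self-avoiding lattice path with `L` steps and one more step in a free direction -/
structure Lp (L : ℕ) (p : ℕ → ℤ × ℤ) : Prop where
  un : ∀ i ≤ L, Un (p (i + 1) - p i)
  inj : ∀ i ≤ L, ∀ j ≤ L, p i = p j → i = j
  mid : ∀ i ≤ L, ∀ j ≤ L, p i + p (i + 1) = p j + p (j + 1) → i = j

/-- initial part of a path in the open diamond -/
structure Blk (Y : ℤ) (q : ℕ) (d : ℕ → ℤ × ℤ) : Prop where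
  zero : d 0 = 0
  inj : ∀ s ≤ q, ∀ s' ≤ q, d s = d s' → s = s'
  adj : ∀ s < q, Adj (d s) (d (s + 1))
  dia : ∀ s, 0 < s → s ≤ q → dia Y (d s)

/-- a path with `m` steps to `(0, Y)` in the open diamond -/
structure Fl (Y : ℤ) (m : ℕ) (d : ℕ → ℤ × ℤ) : Prop where
  one : 1 ≤ m
  blk : Blk Y (m - 1) d
  last : Adj (d (m - 1)) (0, Y)

/-- the path with the blocks `d i` -/
def subst (Y : ℤ) (p : ℕ → ℤ × ℤ) (τ : ℕ → ℕ) (d : ℕ → ℕ → ℤ × ℤ) (k : ℕ) : ℤ × ℤ :=
  sc Y (p (idx τ k)) + rot (p (idx τ k + 1) - p (idx τ k)) (d (idx τ k) (k - τ (idx τ k)))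

section
variable {Y : ℤ} {L r : ℕ} {p : ℕ → ℤ × ℤ} {τ : ℕ → ℕ} {d : ℕ → ℕ → ℤ × ℤ}

theorem subst_tau (hτ : StrictMono τ) (h0 : τ 0 = 0) {i : ℕ} (hd : d i 0 = 0) :
    subst Y p τ d (τ i) = sc Y (p i) := by
  unfold subst
  rw [idx_tau hτ h0, Nat.sub_self, hd, rot_zero, add_zero]

theorem subst_adj (hp : Lp L p) (hτ : StrictMono τ) (h0 : τ 0 = 0)
    (hf : ∀ i < L, Fl Y (τ (i + 1) - τ i) (d i)) (hr : Blk Y r (d L))
    (hrL : τ L + r < τ (L + 1)) {k : ℕ} (hk : k < τ L + r) :
    Adj (subst Y p τ d k) (subst Y p τ d (k + 1)) := by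
  obtain ⟨h1, h2⟩ := idx_spec hτ h0 k
  obtain ⟨i, hi⟩ : ∃ i, i = idx τ k := ⟨_, rfl⟩
  have hiL : i ≤ L := by rw [hi]; exact idx_le hτ h0 (by omega)
  rw [← hi] at h1 h2
  have hun := hp.un i hiL
  rcases Nat.lt_or_ge (k + 1) (τ (i + 1)) with h3 | h3
  · have hi' : idx τ (k + 1) = i := idx_eq hτ h0 (by omega) h3
    unfold subst
    rw [hi', ← hi]
    apply adj_rot hun
    have e : k + 1 - τ i = (k - τ i) + 1 := by omega
    rw [e]
    rcases Nat.lt_or_ge i L with h4 | h4
    · exact (hf i h4).blk.adj _ (by omega)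
    · have : i = L := by omega
      subst this
      exact hr.adj _ (by omega)
  · have e : k + 1 = τ (i + 1) := by omega
    have hiL' : i < L := by
      rcases Nat.lt_or_ge i L with h4 | h4
      · exact h4
      · have : i = L := by omega
        subst this
        omega
    have hd : d (i + 1) 0 = 0 := by
      rcases Nat.lt_or_ge (i + 1) L with h4 | h4
      · exact (hf _ h4).blk.zero
      · have : i + 1 = L := by omega
        rw [this]
        exact hr.zero
    rw [e, subst_tau hτ h0 hd]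
    unfold subst
    rw [← hi]
    have e2 : k - τ i = (τ (i + 1) - τ i) - 1 := by omega
    have e3 : sc Y (p (i + 1)) = sc Y (p i) + rot (p (i + 1) - p i) (0, Y) := by
      rw [rot_top]
      unfold sc
      ext
      · simp only [Prod.fst_add, Prod.fst_sub]; ring
      · simp only [Prod.snd_add, Prod.snd_sub]; ring
    rw [e2, e3]
    exact adj_rot hun _ (hf i hiL').last

theorem subst_inj (hY : 1 ≤ Y) (hp : Lp L p) (hτ : StrictMono τ) (h0 : τ 0 = 0)
    (hf : ∀ i < L, Fl Y (τ (i + 1) - τ i) (d i)) (hr : Blk Y r (d L))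
    (hrL : τ L + r < τ (L + 1)) {k k' : ℕ} (hk : k ≤ τ L + r) (hk' : k' ≤ τ L + r)
    (h : subst Y p τ d k = subst Y p τ d k') : k = k' := by
  have key : ∀ k, k ≤ τ L + r → ∃ i s, i ≤ L ∧ k = τ i + s ∧ idx τ k = i ∧
      (s = 0 → subst Y p τ d k = sc Y (p i)) ∧ (0 < s → dia Y (d i s)) ∧
      (∀ s', τ i + s' ≤ τ L + r → τ i + s' < τ (i + 1) → d i s = d i s' → s = s') := by
    intro k hk
    obtain ⟨h1, h2⟩ := idx_spec hτ h0 k
    obtain ⟨i, hi⟩ : ∃ i, i = idx τ k := ⟨_, rfl⟩
    have hiL : i ≤ L := by rw [hi]; exact idx_le hτ h0 (by omega)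
    rw [← hi] at h1 h2
    have hd : d i 0 = 0 := by
      rcases Nat.lt_or_ge i L with h4 | h4
      · exact (hf _ h4).blk.zero
      · have : i = L := by omega
        rw [this]
        exact hr.zero
    refine ⟨i, k - τ i, hiL, by omega, hi.symm, ?_, ?_, ?_⟩
    · intro hs
      have : k = τ i := by omega
      rw [this, subst_tau hτ h0 hd]
    · intro hs
      rcases Nat.lt_or_ge i L with h4 | h4
      · exact (hf i h4).blk.dia _ hs (by omega)
      · have : i = L := by omega
        subst this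
        exact hr.dia _ hs (by omega)
    · intro s' hs1 hs2 hs3
      rcases Nat.lt_or_ge i L with h4 | h4
      · exact (hf i h4).blk.inj _ (by omega) _ (by omega) hs3
      · have : i = L := by omega
        subst this
        exact hr.inj _ (by omega) _ (by omega) hs3
  obtain ⟨i, s, hi, hks, hik, a1, a2, a3⟩ := key k hk
  obtain ⟨j, t, hj, hkt, hjk, b1, b2, b3⟩ := key k' hk'
  have es : subst Y p τ d k = sc Y (p i) + rot (p (i + 1) - p i) (d i s) := by
    unfold subst
    rw [hik]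
    congr 2
    congr 1
    omega
  have et : subst Y p τ d k' = sc Y (p j) + rot (p (j + 1) - p j) (d j t) := by
    unfold subst
    rw [hjk]
    congr 2
    congr 1
    omega
  rcases Nat.eq_zero_or_pos s with hs | hs <;> rcases Nat.eq_zero_or_pos t with ht | ht
  · rw [a1 hs, b1 ht] at h
    have := hp.inj i hi j hj (sc_inj hY h)
    subst this
    omega
  · rw [a1 hs, et] at h
    exact absurd h (ver_ne hY (hp.un j hj) (b2 ht))
  · rw [b1 ht, es] at h
    exact absurd h.symm (ver_ne hY (hp.un i hi) (a2 hs))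
  · rw [es, et] at h
    by_cases hij : i = j
    · subst hij
      have h2 := rot_inj (hp.un i hi) (add_left_cancel h)
      have h3 := idx_spec hτ h0 k'
      rw [hjk] at h3
      have := a3 t (by omega) (by omega) h2
      omega
    · exfalso
      refine int_ne hY (hp.un i hi) (hp.un j hj) ?_ (a2 hs) (b2 ht) h
      rw [add_sub_cancel, add_sub_cancel]
      exact fun h' => hij (hp.mid i hi j hj h')

end

/-! ### extension of a path by one step -/

/-- one more step, straight on -/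
def ext (L : ℕ) (p : ℕ → ℤ × ℤ) (i : ℕ) : ℤ × ℤ :=
  if i ≤ L then p i else p L + (p L - p (L - 1))

theorem ext_of_le {L : ℕ} {p : ℕ → ℤ × ℤ} {i : ℕ} (h : i ≤ L) : ext L p i = p i := if_pos h

theorem ext_succ (L : ℕ) (p : ℕ → ℤ × ℤ) : ext L p (L + 1) = p L + (p L - p (L - 1)) :=
  if_neg (by omega)

theorem ext_lp {L : ℕ} (hL : 1 ≤ L) {p : ℕ → ℤ × ℤ} (hadj : ∀ i < L, Adj (p i) (p (i + 1)))
    (hinj : ∀ i ≤ L, ∀ j ≤ L, p i = p j → i = j) : Lp L (ext L p) := by
  have hun : ∀ i < L, Un (p (i + 1) - p i) := fun i hi => (adj_iff_un _ _).1 (hadj i hi)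
  have hlast : Un (p L - p (L - 1)) := by
    have := hun (L - 1) (by omega)
    rwa [show L - 1 + 1 = L by omega] at this
  refine ⟨?_, ?_, ?_⟩
  · intro i hi
    rcases Nat.lt_or_ge i L with h | h
    · rw [ext_of_le (by omega), ext_of_le hi]
      exact hun i h
    · have : i = L := by omega
      subst this
      rw [ext_succ, ext_of_le le_rfl, add_sub_cancel_left]
      exact hlast
  · intro i hi j hj h
    rw [ext_of_le hi, ext_of_le hj] at h
    exact hinj i hi j hj h
  · -- midpoints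
    have main : ∀ i j, i < j → j ≤ L → ext L p i + ext L p (i + 1) ≠ ext L p j + ext L p (j + 1) := by
      intro i j hij hj h
      rw [ext_of_le (by omega : i ≤ L), ext_of_le (by omega : i + 1 ≤ L), ext_of_le hj] at h
      have h1 := hun i (by omega)
      rcases Nat.lt_or_ge j L with hjL | hjL
      · rw [ext_of_le (by omega : j + 1 ≤ L)] at h
        have h2 := hun j hjL
        have h3 : p i + (p i + (p (i + 1) - p i)) = p j + (p j + (p (j + 1) - p j)) := by
          rw [add_sub_cancel, add_sub_cancel]; exact h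
        rcases edge_eq h1 h2 h3 with h4 | ⟨h4, h5⟩
        · have := hinj i (by omega) j (by omega) h4
          omega
        · rw [add_sub_cancel] at h4 h5
          have := hinj j (by omega) (i + 1) (by omega) h4
          have := hinj i (by omega) (j + 1) (by omega) h5
          omega
      · have : j = L := by omega
        subst this
        rw [ext_succ] at h
        have h3 : p i + (p i + (p (i + 1) - p i)) = p j + (p j + (p j - p (j - 1))) := by
          rw [add_sub_cancel]; exact h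
        rcases edge_eq h1 hlast h3 with h4 | ⟨h4, h5⟩
        · have := hinj i (by omega) j (by omega) h4
          omega
        · rw [add_sub_cancel] at h4
          have := hinj j (by omega) (i + 1) (by omega) h4
          have e : j - 1 = i := by omega
          rw [e] at h5
          have h6 : p j - p i = 0 := by
            have h7 : p i - p j = p j - p i := by
              calc p i - p j = (p j + (p j - p i)) - p j := by rw [← h5]
                _ = _ := by abel
            have g1 := congrArg Prod.fst h7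
            have g2 := congrArg Prod.snd h7
            simp only [Prod.fst_sub, Prod.snd_sub] at g1 g2
            exact Prod.ext (by simp only [Prod.fst_sub, Prod.fst_zero]; omega)
              (by simp only [Prod.snd_sub, Prod.snd_zero]; omega)
          rw [e, h6] at hlast
          unfold Un at hlast
          simp at hlast
    intro i hi j hj h
    rcases Nat.lt_trichotomy i j with h1 | h1 | h1
    · exact absurd h (main i j h1 hj)
    · exact h1
    · exact absurd h.symm (main j i h1 hi)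

end Pool.Agent.N941.SP
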