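import Pool.Agent.H122R3.SX.Est

/-!
Self-avoiding words on the square lattice: words with a large extent, bridges, reflections.
-/

set_option autoImplicit false

namespace Pool.Agent.N941.SP

open Finset Real
open Pool.Agent.H122R3.SX

/-- a word with a large extent -/
def Wide (S : ℕ) (w : W) : Prop := ∃ v i, v <:+: w ∧ (S : ℤ) ≤ |pos v i|

/-- every wide self-avoiding word contains a crossing word -/
theorem exists_UB' {S : ℕ} (hS : 1 ≤ S) {w : W} (hw : Saw w) (hbig : Wide S w) :
    ∃ u1 u2 u3, ∃ k : Fin 5, w = u1 ++ u2 ++ u3 ∧ UB S (u2.map (pm k)) := by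
  classical
  have hP : ∃ t, ∃ v i, v <:+: w.take t ∧ (S : ℤ) ≤ |pos v i| := by
    obtain ⟨v, i, h1, h2⟩ := hbig
    exact ⟨w.length, v, i, by rwa [List.take_length], h2⟩
  obtain ⟨v0, i, hv0, hv0S⟩ := Nat.find_spec hP
  have hmin : ∀ t, t < Nat.find hP → ∀ v j, v <:+: w.take t → |pos v j| < S := by
    intro t ht v j hv
    by_contra h
    exact Nat.find_min hP ht ⟨v, j, hv, not_lt.1 h⟩
  obtain ⟨t, ht⟩ : ∃ t, t = Nat.find hP := ⟨_, rfl⟩
  rw [← ht] at hv0 hmin
  have ht0 : t ≠ 0 := by
    intro h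
    rw [h, List.take_zero, List.infix_nil] at hv0
    rw [hv0, pos_nil, abs_zero] at hv0S
    omega
  obtain ⟨t', rfl⟩ : ∃ t', t = t' + 1 := ⟨t - 1, by omega⟩
  have htl : t' < w.length := by
    by_contra h
    apply absurd hv0S
    rw [not_le]
    apply hmin t' (by omega)
    rwa [List.take_of_length_le (by omega)] at hv0 ⊢
  have htk : w.take (t' + 1) = w.take t' ++ [w[t']] := by
    rw [List.take_add_one, List.getElem?_eq_getElem htl]; rfl
  have hsuf : ∀ v j, v <:+: w.take (t' + 1) → (S : ℤ) ≤ |pos v j| → v <:+ w.take (t' + 1) := by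
    intro v j hv hS'
    rw [htk, List.infix_concat_iff] at hv
    rcases hv with hv | hv
    · rw [htk]; exact hv
    · have := hmin t' (by omega) v j hv
      omega
  have hle : ∀ v j, v <:+: w.take (t' + 1) → |pos v j| ≤ S := by
    intro v j hv
    by_contra hcon
    rw [not_le] at hcon
    have h1 := hsuf v j hv hcon.le
    rw [htk, List.suffix_concat_iff] at h1
    rcases h1 with h1 | ⟨y, h1, h2⟩
    · rw [h1, pos_nil, abs_zero] at hcon
      omega
    · have h3 := hmin t' (by omega) y j h2.isInfix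
      have h4 := st_abs w[t'] j
      rw [h1, pos_append, pos_cons, pos_nil] at hcon
      rw [abs_lt] at h3
      rw [abs_le] at h4
      rw [lt_abs] at hcon
      omega
  have hQ : ∃ k, ∃ v, v <:+ w.take (t' + 1) ∧ v.length = k ∧ (S : ℤ) ≤ |pos v i| :=
    ⟨v0.length, v0, hsuf v0 i hv0 hv0S, rfl, hv0S⟩
  obtain ⟨v, hv, hvk, hvS⟩ := Nat.find_spec hQ
  have hmin2 : ∀ v', v' <:+ w.take (t' + 1) → v'.length < v.length → |pos v' i| < S := by
    intro v' h1 h2
    by_contra h
    rw [hvk] at h2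
    exact Nat.find_min hQ h2 ⟨v', h1, rfl, not_lt.1 h⟩
  have hvinf : v <:+: w := hv.isInfix.trans (List.take_prefix _ _).isInfix
  have hvi : pos v i = S ∨ pos v i = -S := by
    have h2 := hle v i hv.isInfix
    rw [abs_le] at h2
    rw [le_abs] at hvS
    omega
  have hvle : ∀ x, x <:+: v → ∀ j, |pos x j| ≤ S := fun x hx j => hle x j (hx.trans hv.isInfix)
  obtain ⟨u1, hu1⟩ := hv
  have hpre : ∀ x, x <+: v → x ≠ [] → x ≠ v →
      (pos v i = S → 0 < pos x i ∧ pos x i < S) ∧
      (pos v i = -S → 0 < -pos x i ∧ -pos x i < S) := by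
    intro x hx hx0 hxv
    obtain ⟨y, hy⟩ := hx
    have hy0 : y ≠ [] := by
      rintro rfl
      rw [List.append_nil] at hy
      exact hxv hy
    have hlx : x.length < v.length := by
      rw [← hy, List.length_append]
      have := List.length_pos_of_ne_nil hy0
      omega
    have hly : y.length < v.length := by
      rw [← hy, List.length_append]
      have := List.length_pos_of_ne_nil hx0
      omega
    have hys : y <:+ v := ⟨x, hy⟩
    have h1 := hmin2 y (hys.trans ⟨u1, hu1⟩) hly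
    have hxp : x <:+: w.take (t' + 1) :=
      (List.IsPrefix.isInfix ⟨y, hy⟩).trans (List.IsSuffix.isInfix ⟨u1, hu1⟩)
    have h2 : |pos x i| < S := by
      by_contra hc
      rw [not_lt] at hc
      have := hmin2 x (hsuf x i hxp hc) hlx
      omega
    have h3 : pos v i = pos x i + pos y i := by rw [← hy, pos_append]
    rw [abs_lt] at h1 h2
    constructor <;> intro h4 <;> constructor <;> omega
  -- choose the symmetry
  have key : ∃ k : Fin 5, ∀ x : W, (pos v i = S → pos (x.map (pm k)) 0 = pos x i) ∧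
      (pos v i = -S → pos (x.map (pm k)) 0 = -pos x i) ∧
      ∀ j, |pos (x.map (pm k)) j| = |pos x 0| ∨ |pos (x.map (pm k)) j| = |pos x 1| := by
    have hSpos : (0 : ℤ) < S := by exact_mod_cast hS
    rcases hvi with h | h <;> fin_cases i
    · refine ⟨0, fun x => ⟨?_, ?_, ?_⟩⟩
      · intro _; rw [pos_map]; simp [Pool.Agent.H122R3.SX.mt]
      · intro h'; simp only [Fin.zero_eta] at h h'; omega
      · intro j; rw [pos_map]; fin_cases j <;> simp [Pool.Agent.H122R3.SX.mt]
    · refine ⟨2, fun x => ⟨?_, ?_, ?_⟩⟩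
      · intro _; rw [pos_map]; simp [Pool.Agent.H122R3.SX.mt]
      · intro h'; simp only [Fin.mk_one] at h h'; omega
      · intro j; rw [pos_map]; fin_cases j <;> simp [Pool.Agent.H122R3.SX.mt]
    · refine ⟨1, fun x => ⟨?_, ?_, ?_⟩⟩
      · intro h'; simp only [Fin.zero_eta] at h h'; omega
      · intro _; rw [pos_map]; simp [Pool.Agent.H122R3.SX.mt]
      · intro j; rw [pos_map]; fin_cases j <;> simp [Pool.Agent.H122R3.SX.mt]
    · refine ⟨3, fun x => ⟨?_, ?_, ?_⟩⟩
      · intro h'; simp only [Fin.mk_one] at h h'; omega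
      · intro _; rw [pos_map]; simp [Pool.Agent.H122R3.SX.mt]
      · intro j; rw [pos_map]; fin_cases j <;> simp [Pool.Agent.H122R3.SX.mt]
  obtain ⟨k, hk⟩ := key
  refine ⟨u1, v, w.drop (t' + 1), k, ?_, ⟨(hw.inf hvinf).map k, ?_, ?_, ?_⟩⟩
  · rw [hu1, List.take_append_drop]
  · intro x hx j
    obtain ⟨x', hx', rfl⟩ := exists_of_inf_map hx
    rcases (hk x').2.2 j with h | h <;> rw [h]
    · exact hvle x' hx' 0
    · exact hvle x' hx' 1
  · rcases hvi with h | h
    · rw [(hk v).1 h, h]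
    · rw [(hk v).2.1 h, h]; ring
  · intro x hx hx0 hxv
    obtain ⟨x', hx', rfl⟩ := exists_of_pre_map hx
    have h5 := hpre x' hx' (by simpa using hx0) (by rintro rfl; exact hxv rfl)
    rcases hvi with h | h
    · rw [(hk x').1 h]; exact h5.1 h
    · rw [(hk x').2.1 h]; exact h5.2 h

/-- number of wide self-avoiding words -/
noncomputable def wide (n S : ℕ) : ℕ := (fs (fun w => Saw w ∧ Wide S w) n).card

theorem wide_le {S n : ℕ} (hS : 1 ≤ S) :
    wide n S ≤ ∑ m ∈ range (n + 1), ∑ a ∈ range (n - m + 1), 5 * (c a * ub m S * c (n - m - a)) := by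
  classical
  choose f hf using pm_symm
  have hsub : fs (fun w => Saw w ∧ Wide S w) n ⊆
      (range (n + 1)).biUnion fun m => (range (n - m + 1)).biUnion fun a =>
      (univ : Finset (Fin 5)).biUnion fun k =>
        ((fs Saw a ×ˢ fs (UB S) m) ×ˢ fs Saw (n - m - a)).image
          (fun p => p.1.1 ++ (p.1.2.map (f k)) ++ p.2) := by
    intro w hw
    rw [mem_fs] at hw
    obtain ⟨u1, u2, u3, k, hw1, hw2⟩ := exists_UB' hS hw.1.1 hw.1.2
    have hl := hw.2
    have hws := hw.1.1
    rw [hw1, List.length_append, List.length_append] at hl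
    simp only [mem_biUnion, mem_range, mem_univ, true_and, mem_image, mem_product, Prod.exists]
    refine ⟨u2.length, by omega, u1.length, by omega, k, u1, u2.map (pm k), u3, ?_, ?_⟩
    · refine ⟨⟨?_, ?_⟩, ?_⟩
      · rw [mem_fs]
        exact ⟨hws.inf (by rw [hw1, List.append_assoc]; exact (List.prefix_append _ _).isInfix), rfl⟩
      · rw [mem_fs, List.length_map]
        exact ⟨hw2, rfl⟩
      · rw [mem_fs]
        exact ⟨hws.inf (by rw [hw1]; exact (List.suffix_append _ _).isInfix), by omega⟩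
    · rw [hw1]
      have e : (u2.map (pm k)).map (f k) = u2 := by
        rw [List.map_map]
        convert List.map_id u2
        ext j
        simp [hf]
      rw [e]
  unfold wide
  refine (card_le_card hsub).trans ?_
  refine card_biUnion_le.trans (sum_le_sum fun m _ => ?_)
  refine card_biUnion_le.trans (sum_le_sum fun a _ => ?_)
  refine card_biUnion_le.trans ?_
  calc ∑ k : Fin 5, (((fs Saw a ×ˢ fs (UB S) m) ×ˢ fs Saw (n - m - a)).image
          (fun p => p.1.1 ++ (p.1.2.map (f k)) ++ p.2)).card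
      ≤ ∑ _k : Fin 5, (fs Saw a).card * (fs (UB S) m).card * (fs Saw (n - m - a)).card := by
        refine sum_le_sum fun i _ => card_image_le.trans ?_
        rw [card_product, card_product]
    _ = _ := by
        rw [sum_const, card_univ, Fintype.card_fin, smul_eq_mul]
        rfl

/-- bridges -/
structure Br (w : W) : Prop where
  saw : Saw w
  low : ∀ v, v <+: w → v ≠ [] → 1 ≤ pos v 0
  high : ∀ v, v <+: w → pos v 0 ≤ pos w 0

/-- number of bridges -/
noncomputable def bw (n : ℕ) : ℕ := (fs Br n).card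

theorem Br.G_of_not_wide {S : ℕ} {w : W} (h : Br w) (hw : ¬ Wide S w) :
    G (pos w 0) (X w) S w ∧ 0 ≤ pos w 0 ∧ pos w 0 < S ∧ |X w| < S := by
  have key : ∀ v i, v <:+: w → |pos v i| < S := by
    intro v i hv
    by_contra hc
    exact hw ⟨v, i, hv, not_lt.1 hc⟩
  have h0 : 0 ≤ pos w 0 := by
    have := h.high [] List.nil_prefix
    simpa using this
  refine ⟨⟨h.saw, rfl, rfl, h.low, fun v hv => ⟨h.high v hv, ?_⟩⟩, h0, ?_, ?_⟩
  · exact (key v 1 hv.isInfix).le
  · have := key w 0 (List.infix_refl _)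
    rw [abs_lt] at this
    exact this.2
  · exact key w 1 (List.infix_refl _)

theorem bw_le (n S : ℕ) : bw n ≤ wide n S +
    ∑ p ∈ Ico (0 : ℤ) S ×ˢ Ioo (-(S : ℤ)) S, g p.1 p.2 S n := by
  classical
  have hsub : fs Br n ⊆ fs (fun w => Saw w ∧ Wide S w) n ∪
      (Ico (0 : ℤ) S ×ˢ Ioo (-(S : ℤ)) S).biUnion fun p => fs (G p.1 p.2 S) n := by
    intro w hw
    rw [mem_fs] at hw
    rw [mem_union]
    by_cases hwd : Wide S w
    · left
      rw [mem_fs]
      exact ⟨⟨hw.1.saw, hwd⟩, hw.2⟩
    · right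
      obtain ⟨h1, h2, h3, h4⟩ := hw.1.G_of_not_wide hwd
      rw [mem_biUnion]
      refine ⟨(pos w 0, X w), ?_, ?_⟩
      · rw [mem_product, mem_Ico, mem_Ioo]
        rw [abs_lt] at h4
        exact ⟨⟨h2, h3⟩, h4⟩
      · rw [mem_fs]
        exact ⟨h1, hw.2⟩
  unfold bw wide
  refine (card_le_card hsub).trans ((card_union_le _ _).trans ?_)
  exact Nat.add_le_add_left card_biUnion_le _

theorem G.refl {H x T : ℤ} {w : W} (h : G H x T w) : G H (-x) T (w.map (pm 4)) := by
  refine ⟨h.saw.map 4, ?_, ?_, ?_, ?_⟩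
  · rw [pos_map, ← h.top]; simp [Pool.Agent.H122R3.SX.mt]
  · rw [← h.hor]
    unfold X
    rw [pos_map]; simp [Pool.Agent.H122R3.SX.mt]
  · intro v hv h0
    obtain ⟨v', hv', rfl⟩ := exists_of_pre_map hv
    have := h.low v' hv' (by simpa using h0)
    rw [pos_map]
    simpa [Pool.Agent.H122R3.SX.mt] using this
  · intro v hv
    obtain ⟨v', hv', rfl⟩ := exists_of_pre_map hv
    have := h.high v' hv'
    unfold X at *
    rw [pos_map, pos_map]
    simpa [Pool.Agent.H122R3.SX.mt] using this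

theorem g_refl (H x T : ℤ) (n : ℕ) : g H x T n ≤ g H (-x) T n := by
  apply card_le_card_of_injOn (fun w => w.map (pm 4))
  · intro w hw
    rw [mem_coe, mem_fs] at hw
    rw [mem_coe, mem_fs]
    exact ⟨G.refl hw.1, by simp [hw.2]⟩
  · intro a _ b _ h
    exact (List.map_injective_iff.2 (pm_inj 4)) h

theorem g_sq_le {H x S : ℤ} (hx : |x| ≤ S) (n : ℕ) : g H x S n ^ 2 ≤ g (2 * H) 0 (2 * S) (2 * n) := by
  have hS : 0 ≤ S := (abs_nonneg x).trans hx
  calc g H x S n ^ 2 = g H x S n * g H x S n := sq _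
    _ ≤ g H x S n * g H (-x) S n := Nat.mul_le_mul_left _ (g_refl _ _ _ _)
    _ ≤ _ := g_mul _ _ _ _ _ _ _ _
    _ = g (2 * H) 0 (max S (|x| + S)) (2 * n) := by
        congr 1
        · ring
        · ring
        · ring
    _ ≤ _ := by
        apply g_mono
        apply max_le <;> omega

end Pool.Agent.N941.SP
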