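import Pool.Agent.N941.SP.Dia
import Pool.Agent.N941.SP.Sub

/-!
Blocks from diamond words; wiggling diamond words with a prescribed number of letters.
-/

set_option autoImplicit false

namespace Pool.Agent.N941.SP

open Pool.Agent.H122R3.SX

theorem take_dia {w v : W} (hv : v <+: w) : w.take v.length = v :=
  (List.prefix_iff_eq_take.1 hv).symm

theorem V_take_succ {w : W} {s : ℕ} (h : s < w.length) :
    Adj (V (w.take s)) (V (w.take (s + 1))) := by
  have e : w.take (s + 1) = w.take s ++ [w[s]] := by
    rw [List.take_add_one, List.getElem?_eq_getElem h]; rfl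
  rw [e]
  exact adj_next _ _

theorem V_take_inj {w : W} (hw : Saw w) {s s' : ℕ} (hs : s ≤ w.length) (hs' : s' ≤ w.length)
    (h : V (w.take s) = V (w.take s')) : s = s' := by
  have h1 := pos_eq_of_V h
  rcases Nat.lt_trichotomy s s' with h2 | h2 | h2
  · obtain ⟨a, ha⟩ := hw.take_ne h2 hs'
    exact absurd (h1 a) ha
  · exact h2
  · obtain ⟨a, ha⟩ := hw.take_ne h2 hs
    exact absurd (h1 a).symm ha

theorem Dm.fl {Y : ℤ} {w : W} (hY : 1 ≤ Y) (h : Dm Y w) :
    Fl Y w.length (fun s => V (w.take s)) := by
  have hl : 1 ≤ w.length := by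
    by_contra hc
    have : w = [] := List.length_eq_zero_iff.1 (by omega)
    have h1 := h.top
    rw [this, pos_nil] at h1
    omega
  refine ⟨hl, ⟨?_, ?_, ?_, ?_⟩, ?_⟩
  · simp [V]
  · intro s hs s' hs' h1
    exact V_take_inj h.saw (by omega) (by omega) h1
  · intro s hs
    exact V_take_succ (by omega)
  · intro s hs0 hs
    have h1 := h.mid (w.take s) (List.take_prefix _ _) (by
        intro hc
        have := congrArg List.length hc
        rw [List.length_take, List.length_nil] at this
        omega) (by
        intro hc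
        have := congrArg List.length hc
        rw [List.length_take] at this
        omega)
    exact h1
  · have h1 := V_take_succ (w := w) (s := w.length - 1) (by omega)
    rw [show w.length - 1 + 1 = w.length by omega, List.take_length] at h1
    have h2 : V w = (0, Y) := by
      unfold V
      rw [h.top, h.hor]
    rw [h2] at h1
    exact h1

/-- straight block -/
theorem straight_blk {Y : ℤ} {r : ℕ} (h : (r : ℤ) < Y) :
    Blk Y r (fun s : ℕ => ((0 : ℤ), (s : ℤ))) := by
  refine ⟨rfl, ?_, ?_, ?_⟩
  · intro s _ s' _ h1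
    have := congrArg Prod.snd h1
    simp only at this
    exact_mod_cast this
  · intro s _
    unfold Adj
    simp
  · intro s hs0 hs
    unfold dia
    simp only [abs_zero, mul_zero, zero_add]
    rw [abs_lt]
    constructor <;> omega

/-! ### wiggles -/

theorem pos_nonneg {w : W} {i : Fin 2} (h : ∀ l ∈ w, 0 ≤ st l i) : 0 ≤ pos w i := by
  induction w with
  | nil => simp
  | cons l w ih =>
    rw [pos_cons]
    have h1 := h l List.mem_cons_self
    have h2 := ih (fun l hl => h l (List.mem_cons_of_mem _ hl))
    omega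

theorem pos_nonpos {w : W} {i : Fin 2} (h : ∀ l ∈ w, st l i ≤ 0) : pos w i ≤ 0 := by
  induction w with
  | nil => simp
  | cons l w ih =>
    rw [pos_cons]
    have h1 := h l List.mem_cons_self
    have h2 := ih (fun l hl => h l (List.mem_cons_of_mem _ hl))
    omega

theorem pos_replicate (a : ℕ) (l : Fin 4) (i : Fin 2) : pos (List.replicate a l) i = a * st l i := by
  induction a with
  | zero => simp
  | succ a ih => rw [List.replicate_succ, pos_cons, ih]; push_cast; ring

theorem saw_of_monotone {w : W} (f : Fin 4 → ℤ) (u v : ℤ)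
    (hf : ∀ l, f l = u * st l 0 + v * st l 1) (h : ∀ l ∈ w, 1 ≤ f l) : Saw w := by
  intro x hx h0
  have hmem : ∀ l ∈ x, 1 ≤ f l := fun l hl => h l (hx.subset hl)
  have key : ∀ x : W, (∀ l ∈ x, 1 ≤ f l) → (x.length : ℤ) ≤ u * pos x 0 + v * pos x 1 := by
    intro x
    induction x with
    | nil => simp
    | cons l x ih =>
      intro h
      have h1 := ih (fun l hl => h l (List.mem_cons_of_mem _ hl))
      have h2 := h l List.mem_cons_self
      rw [hf] at h2
      rw [pos_cons, pos_cons, List.length_cons]
      push_cast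
      linarith
  have h1 := key x hmem
  have h2 := List.length_pos_of_ne_nil h0
  by_contra hcon
  push Not at hcon
  rw [hcon 0, hcon 1] at h1
  omega

/-- a tooth -/
theorem G_tooth (a : ℕ) : G 2 0 a (([0] ++ List.replicate a 2) ++ ([0] ++ List.replicate a 3)) := by
  have m1 : ∀ l ∈ ([0] ++ List.replicate a 2 : W), l = 0 ∨ l = 2 := by
    intro l hl
    rw [List.mem_append, List.mem_singleton, List.mem_replicate] at hl
    tauto
  have m2 : ∀ l ∈ ([0] ++ List.replicate a 3 : W), l = 0 ∨ l = 3 := by
    intro l hl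
    rw [List.mem_append, List.mem_singleton, List.mem_replicate] at hl
    tauto
  have s1 : Saw ([0] ++ List.replicate a 2 : W) := by
    apply saw_of_monotone (fun l => st l 0 + st l 1) 1 1 (fun l => by ring)
    intro l hl
    rcases m1 l hl with rfl | rfl <;> decide
  have s2 : Saw ([0] ++ List.replicate a 3 : W) := by
    apply saw_of_monotone (fun l => st l 0 - st l 1) 1 (-1) (fun l => by ring)
    intro l hl
    rcases m2 l hl with rfl | rfl <;> decide
  have n1 : ∀ v : W, (∀ l ∈ v, l = 0 ∨ l = 2) → 0 ≤ pos v 0 ∧ 0 ≤ X v := by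
    intro v hv
    constructor
    · apply pos_nonneg
      intro l hl
      rcases hv l hl with rfl | rfl <;> decide
    · apply pos_nonneg
      intro l hl
      rcases hv l hl with rfl | rfl <;> decide
  have n2 : ∀ v : W, (∀ l ∈ v, l = 0 ∨ l = 3) → 0 ≤ pos v 0 ∧ X v ≤ 0 := by
    intro v hv
    constructor
    · apply pos_nonneg
      intro l hl
      rcases hv l hl with rfl | rfl <;> decide
    · apply pos_nonpos
      intro l hl
      rcases hv l hl with rfl | rfl <;> decide
  have p1 : pos ([0] ++ List.replicate a 2 : W) 0 = 1 := by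
    rw [pos_append, pos_replicate]; simp [st]
  have p2 : pos ([0] ++ List.replicate a 3 : W) 0 = 1 := by
    rw [pos_append, pos_replicate]; simp [st]
  have x1 : X ([0] ++ List.replicate a 2 : W) = a := by
    unfold X
    rw [pos_append, pos_replicate]; simp [st]
  have x2 : X ([0] ++ List.replicate a 3 : W) = -a := by
    unfold X
    rw [pos_append, pos_replicate]; simp [st]
  have low1 : ∀ (b : W), (∀ l ∈ ([0] ++ b : W), 0 ≤ st l 0) → ∀ v, v <+: ([0] ++ b : W) → v ≠ [] →
      1 ≤ pos v 0 := by
    intro b hb v hv hv0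
    obtain ⟨l, v', rfl⟩ := List.exists_cons_of_ne_nil hv0
    rw [List.singleton_append, List.cons_prefix_cons] at hv
    obtain ⟨rfl, hv⟩ := hv
    have h1 : 0 ≤ pos v' 0 := pos_nonneg (fun l hl => hb l (by
      rw [List.singleton_append]
      exact List.mem_cons_of_mem _ (hv.subset hl)))
    rw [pos_cons]
    have : st 0 0 = 1 := by decide
    omega
  have low2 := low1 (List.replicate a 3) (fun l hl => by
    rcases m2 l hl with rfl | rfl <;> decide)
  have pre : ∀ v t w : W, v ++ t = w → pos v 0 + pos t 0 = pos w 0 ∧ X v + X t = X w := by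
    rintro v t w rfl
    rw [pos_append, X_append]
    exact ⟨rfl, rfl⟩
  refine ⟨saw_append s1 s2 p1 ?_ low2, ?_, ?_, ?_, ?_⟩
  · rintro v ⟨t, ht⟩
    have h1 := (pre _ _ _ ht).1
    have h2 := (n1 t (fun l hl => m1 l (by rw [← ht]; exact List.mem_append_right _ hl))).1
    omega
  · rw [pos_append, p1, p2]; rfl
  · rw [X_append, x1, x2]; ring
  · intro v hv hv0
    rw [List.append_assoc] at hv
    apply low1 _ _ v hv hv0
    intro l hl
    rw [← List.append_assoc, List.mem_append] at hl
    rcases hl with hl | hl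
    · rcases m1 l hl with rfl | rfl <;> decide
    · rcases m2 l hl with rfl | rfl <;> decide
  · intro v hv
    rcases prefix_append_cases hv with ⟨t, ht⟩ | ⟨p, rfl, ⟨t, ht⟩⟩
    · have h1 := pre _ _ _ ht
      have h2 := n1 t (fun l hl => m1 l (by rw [← ht]; exact List.mem_append_right _ hl))
      have h3 := n1 v (fun l hl => m1 l (by rw [← ht]; exact List.mem_append_left _ hl))
      refine ⟨by omega, ?_⟩
      rw [abs_le]
      constructor <;> omega
    · have h1 := pre _ _ _ ht
      have h2 := n2 t (fun l hl => m2 l (by rw [← ht]; exact List.mem_append_right _ hl))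
      have h3 := n2 p (fun l hl => m2 l (by rw [← ht]; exact List.mem_append_left _ hl))
      rw [pos_append, X_append, p1, x1, abs_le]
      refine ⟨by omega, ?_, ?_⟩ <;> omega

theorem exists_teeth (A h E : ℕ) (hE : E ≤ h * A) :
    ∃ w : W, G (2 * h) 0 A w ∧ w.length = 2 * h + 2 * E := by
  induction h generalizing E with
  | zero =>
    refine ⟨[], ?_, ?_⟩
    · have := G_nil.mono (T' := (A : ℤ)) (by positivity)
      simpa using this
    · rw [Nat.zero_mul] at hE
      simp
      omega
  | succ h ih =>
    obtain ⟨w, hw, hl⟩ := ih (E - min E A) (by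
      rcases Nat.le_total E A with h1 | h1
      · rw [min_eq_left h1]; omega
      · rw [min_eq_right h1]
        rw [Nat.add_mul, one_mul] at hE
        omega)
    have h1 := hw.append ((G_tooth (min E A)).mono (T' := (A : ℤ))
      (by exact_mod_cast min_le_right E A))
    refine ⟨w ++ (([0] ++ List.replicate (min E A) 2) ++ ([0] ++ List.replicate (min E A) 3)),
      ?_, ?_⟩
    · simp only [abs_zero, zero_add, max_self, add_zero] at h1
      have e : 2 * ((h : ℕ) : ℤ) + 2 = 2 * ((h + 1 : ℕ) : ℤ) := by push_cast; ring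
      rw [e] at h1
      exact h1
    · simp only [List.length_append, List.length_replicate, List.length_singleton, hl]
      have := min_le_left E A
      omega

theorem exists_GW (H : ℕ) : ∃ w : W, GW (1 / 2) H w ∧ w.length = H := by
  have h := one_le_gw (η := 1 / 2) (by norm_num) H
  obtain ⟨w, hw⟩ := Finset.card_pos.1 h
  rw [mem_fs] at hw
  exact ⟨w, hw⟩

/-- **wiggling words** -/
theorem exists_wiggle {a E : ℕ} (ha : 1 ≤ a) (hE : E ≤ 2 * a * a) :
    ∃ w : W, Dm ((8 * a + 2 : ℕ) : ℤ) w ∧ w.length = 8 * a + 2 + 2 * E := by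
  obtain ⟨c, hc, hcl⟩ := exists_GW (2 * a)
  obtain ⟨b, hb, hbl⟩ := exists_teeth a (2 * a) E hE
  have hb' := hb.append (G_elem.mono (T' := (a : ℤ)) (by positivity))
  simp only [abs_zero, zero_add, max_self, add_zero] at hb'
  have hT : ((a : ℤ) : ℝ) ≤ 1 / 2 * (((2 * a : ℕ) : ℤ) : ℝ) := by
    push_cast
    linarith
  have h := Dm.glue (η := 1 / 2) (by norm_num) le_rfl (H := ((2 * a : ℕ) : ℤ))
    (by exact_mod_cast (by omega : 1 ≤ 2 * a)) hT hc hb' hc
  refine ⟨(c ++ (b ++ [0])) ++ (c ++ [0]).reverse, ?_, ?_⟩
  · have e : 2 * ((2 * a : ℕ) : ℤ) + (2 * ((2 * a : ℕ) : ℤ) + 1) + 1 = ((8 * a + 2 : ℕ) : ℤ) := by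
      push_cast; ring
    rw [e] at h
    exact h
  · simp only [List.length_append, List.length_reverse, List.length_singleton, hcl, hbl]
    omega

end Pool.Agent.N941.SP
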